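import Mathlib

/-!
# Project sj, part E (stage 3), first half: invariants of `∏ sl(V_t)` in coordinates

Self contained multilinear algebra.  `K` is the set of all basis vectors of `⊕ V_t`, `ty k` the type of
`k`.  A tensor in `(⊕ V_t)^{⊗ p} ⊗ (⊕ V_t^*)^{⊗ q}` is a function `x : (Fin p → K) → (Fin q → K) → ℂ`.
THEOREM (FG6): a tensor killed by all `A ∈ ∏ sl(V_t)` (block diagonal matrices with trace zero on every
block) is a combination of products of contractions and determinants.

Every statement `FXX_stmt` is proved in `Pool/Agent/<seat>/SJ/FXX.lean`, `import Pool.Agent.helper47.SJ.SpecF`,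
`namespace Pool.Agent.SJ`, `theorem FXX (h : FYY_stmt) ... : FXX_stmt` (any other statement may be a hypothesis, except
circularly), auxiliary lemmas prefixed `FXX_`.
-/

namespace Pool.Agent.SJ

noncomputable section

/-- the derivation `∑_j 1 ⊗ ... ⊗ A ⊗ ... ⊗ 1` on tensors of degree `P` -/
def DT {K : Type} [Fintype K] [DecidableEq K] {P : ℕ} (A : K → K → ℂ) :
    ((Fin P → K) → ℂ) →ₗ[ℂ] ((Fin P → K) → ℂ) where
  toFun u := fun k => ∑ j, ∑ a, A (k j) a * u (Function.update k j a)
  map_add' u v := by
    funext k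
    simp only [Pi.add_apply, mul_add, Finset.sum_add_distrib]
  map_smul' c u := by
    funext k
    simp only [Pi.smul_apply, smul_eq_mul, RingHom.id_apply, Finset.mul_sum]
    refine Finset.sum_congr rfl fun j _ => Finset.sum_congr rfl fun a _ => by ring

/-- the operator `A^{⊗ P}` -/
def TP {K : Type} [Fintype K] [DecidableEq K] {P : ℕ} (A : K → K → ℂ) :
    ((Fin P → K) → ℂ) →ₗ[ℂ] ((Fin P → K) → ℂ) where
  toFun u := fun k => ∑ l : Fin P → K, (∏ j, A (k j) (l j)) * u l
  map_add' u v := by
    funext k
    simp only [Pi.add_apply, mul_add, Finset.sum_add_distrib]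
  map_smul' c u := by
    funext k
    simp only [Pi.smul_apply, smul_eq_mul, RingHom.id_apply, Finset.mul_sum]
    refine Finset.sum_congr rfl fun l _ => by ring

/-- block diagonal -/
def BD {K Ty : Type} (ty : K → Ty) (A : K → K → ℂ) : Prop := ∀ a b, ty a ≠ ty b → A a b = 0

/-- FG1. Double commutant theorem for a finite group. Proof: `N = dim V`, `v = (e_1, ..., e_N) ∈ V^N`. The subspace
`S = {(T' e_1, ..., T' e_N) : T' ∈ span ρ(G)}` of `V^N` is stable under `G`; average a projection onto `S` over `G`
(`LinearMap.equivariantProjection`, or by hand) to get a projection `π` commuting with `G`; its matrix entries are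
endomorphisms of `V` commuting with all `ρ(g)`, so `T` (diagonally) commutes with `π`, so `T v = T π v = π T v ∈ S`. -/
def FG1_stmt : Prop :=
  ∀ (G : Type) [Group G] [Finite G] (V : Type) [AddCommGroup V] [Module ℂ V] [FiniteDimensional ℂ V]
    (ρ : G →* Module.End ℂ V) (T : Module.End ℂ V),
    (∀ S : Module.End ℂ V, (∀ g, S * ρ g = ρ g * S) → S * T = T * S) →
    T ∈ Submodule.span ℂ (Set.range ρ)

/-- FG2. Symmetric functions are combinations of products. (If a linear form `φ` on functions vanishes on all
`k ↦ ∏ X(k_j)`, the polynomial `∑_k φ(k) ∏ X_{k_j}` in the variables `X_a` vanishes identically, so its coefficients,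
the sums of `φ` over the orbits of the permutations, vanish, so `φ` vanishes on symmetric functions.) -/
def FG2_stmt : Prop :=
  ∀ (K : Type) [Fintype K] [DecidableEq K] (P : ℕ) (u : (Fin P → K) → ℂ),
    (∀ (σ : Equiv.Perm (Fin P)) k, u (k ∘ σ) = u k) →
    u ∈ Submodule.span ℂ {f | ∃ X : K → ℂ, f = fun k => ∏ j, X (k j)}

/-- FG3. An operator commuting with all `DT A`, `A` block diagonal, commutes with all `TP A`. Proof: let
`D_m(A_1, ..., A_m) = ∑_{j injective} A_1` at place `j_1`, ..., `A_m` at place `j_m` (identity at the other places). Then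
`DT A ∘ D_m(A_1..A_m) = D_{m+1}(A, A_1..A_m) + ∑_i D_m(.., A A_i, ..)`, so by induction `T` commutes with all `D_m`, and
`D_P(A, ..., A) = P! TP A`. -/
def FG3_stmt : Prop :=
  ∀ (K Ty : Type) [Fintype K] [DecidableEq K] [Fintype Ty] [DecidableEq Ty] (ty : K → Ty) (P : ℕ)
    (T : ((Fin P → K) → ℂ) →ₗ[ℂ] ((Fin P → K) → ℂ)),
    (∀ A, BD ty A → T ∘ₗ DT A = DT A ∘ₗ T) → ∀ A, BD ty A → T ∘ₗ TP A = TP A ∘ₗ T

/-- FG4. `gl`-invariants of type `(P, P)`. `x(k, l)` killed by all block diagonal `A` is a combination of the
`[l = k ∘ σ]`, with coefficients depending only on `σ` and the types of `k`.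
Proof: `T u (k) = ∑_l x(k, l) u(l)` commutes with all `DT A`, so (`FG3`) with all `TP A`, `A` block diagonal. Let `Γ` be the finite
group of operators generated by the permutations and the sign changes `u ↦ ∏_j θ_j(ty k_j) u(k)`, `θ_j : Ty → {±1}` (a semidirect
product). An operator `S` commuting with `Γ` has a kernel `S(k, l)` vanishing unless `ty ∘ k = ty ∘ l`, and invariant under
simultaneous permutations: a symmetric function on words in `K' = {(a, b) : ty a = ty b}`, so (`FG2`) a combination of `TP A`'s,
`A` block diagonal. So `T` commutes with `S`; by `FG1`, `T ∈ span Γ`. (Alternatively: restrict to words of a given type and use the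
stabiliser of the type word.) -/
def FG4_stmt : Prop :=
  ∀ (K Ty : Type) [Fintype K] [DecidableEq K] [Fintype Ty] [DecidableEq Ty] (ty : K → Ty) (P : ℕ)
    (x : (Fin P → K) → (Fin P → K) → ℂ),
    (∀ A, BD ty A → ∀ k l, ∑ j, ∑ a, A (k j) a * x (Function.update k j a) l =
      ∑ j, ∑ a, A a (l j) * x k (Function.update l j a)) →
    ∃ c : Equiv.Perm (Fin P) → (Fin P → Ty) → ℂ, ∀ k l,
      x k l = ∑ σ, c σ (ty ∘ k) * if l = k ∘ σ then 1 else 0

/-- number of basis vectors of type `t` -/
def nt {K Ty : Type} [Fintype K] [DecidableEq Ty] (ty : K → Ty) (t : Ty) : ℕ :=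
  Fintype.card {a // ty a = t}

/-- an enumeration of the basis vectors of type `t` -/
def et {K Ty : Type} [Fintype K] [DecidableEq Ty] (ty : K → Ty) (t : Ty) :
    Fin (nt ty t) ≃ {a // ty a = t} := (Fintype.equivFin _).symm

/-- the determinant of type `t`, on lists of `nt t` basis vectors -/
def dt {K Ty : Type} [Fintype K] [DecidableEq K] [DecidableEq Ty] (ty : K → Ty) (t : Ty)
    (l : List K) : ℂ :=
  if h : l.length = nt ty t then
    (Matrix.of fun i j : Fin (nt ty t) => if l.get (Fin.cast h.symm i) = (et ty t j : K) then (1 : ℂ)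
      else 0).det
  else 0

/-- contraction, determinant, dual determinant -/
inductive Item (Ty : Type) : Type
  | th (t : Ty)
  | de (t : Ty)
  | ds (t : Ty)

/-- the product of the contractions and determinants of a list of items, on a pair of words -/
def evI {K Ty : Type} [Fintype K] [DecidableEq K] [DecidableEq Ty] (ty : K → Ty) :
    List (Item Ty) → List K → List K → ℂ
  | [], [], [] => 1
  | [], _, _ => 0
  | Item.th t :: s, a :: k, b :: l => (if a = b ∧ ty a = t then 1 else 0) * evI ty s k l
  | Item.th _ :: _, _, _ => 0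
  | Item.de t :: s, k, l => dt ty t (k.take (nt ty t)) * evI ty s (k.drop (nt ty t)) l
  | Item.ds t :: s, k, l => dt ty t (l.take (nt ty t)) * evI ty s k (l.drop (nt ty t))

/-- `x` is killed by all `A ∈ ∏ sl(V_t)` -/
def KillSL {K Ty : Type} [Fintype K] [DecidableEq K] [DecidableEq Ty] (ty : K → Ty) {p q : ℕ}
    (x : (Fin p → K) → (Fin q → K) → ℂ) : Prop :=
  ∀ A : K → K → ℂ, BD ty A → (∀ t, ∑ a, (if ty a = t then A a a else 0) = 0) → ∀ k l,
    ∑ j, ∑ a, A (k j) a * x (Function.update k j a) l =
      ∑ j, ∑ a, A a (l j) * x k (Function.update l j a)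

/-- the span of the products of contractions and determinants, with arbitrary permutations of the places -/
def FFT {K Ty : Type} [Fintype K] [DecidableEq K] [DecidableEq Ty] (ty : K → Ty) (p q : ℕ) :
    Submodule ℂ ((Fin p → K) → (Fin q → K) → ℂ) :=
  Submodule.span ℂ {f | ∃ (s : List (Item Ty)) (σ : Equiv.Perm (Fin p)) (τ : Equiv.Perm (Fin q)),
    f = fun k l => evI ty s (List.ofFn (k ∘ σ)) (List.ofFn (l ∘ τ))}

/-- FG5. Degrees: if `x` is killed by `∏ sl(V_t)` then its restriction to words `k` with `p_t` letters of type `t`, and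
`l` with `q_t` letters of type `t` (all `t`) is killed by `∏ sl(V_t)`, is zero unless `p_t - q_t` is a multiple of `nt t` for all `t`
(with `nt t > 0`), and for all block diagonal `A` satisfies
`(A x)(k, l) = ∑_t (p_t - q_t) / nt t * (trace of A on V_t) * x(k, l)`. (For the divisibility apply it to the projection on one basis
vector `a` of type `t`, for which `A x (k, l) = (number of a in k - number of a in l) x(k, l)`.) -/
def FG5_stmt : Prop :=
  ∀ (K Ty : Type) [Fintype K] [DecidableEq K] [Fintype Ty] [DecidableEq Ty] (ty : K → Ty),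
    Function.Surjective ty → ∀ (p q : ℕ) (x : (Fin p → K) → (Fin q → K) → ℂ), KillSL ty x →
    ∀ pt qt : Ty → ℕ,
    (∀ k l, x k l ≠ 0 → (∀ t, (Finset.univ.filter (fun j => ty (k j) = t)).card = pt t) ∧
      ∀ t, (Finset.univ.filter (fun j => ty (l j) = t)).card = qt t) →
    (∀ A, BD ty A → ∀ k l, ∑ j, ∑ a, A (k j) a * x (Function.update k j a) l -
      ∑ j, ∑ a, A a (l j) * x k (Function.update l j a) =
      (∑ t, ((pt t : ℂ) - qt t) / nt ty t * ∑ a, (if ty a = t then A a a else 0)) * x k l) ∧
    (x ≠ 0 → ∀ t, (nt ty t : ℤ) ∣ (pt t : ℤ) - qt t)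

/-- FG6. First fundamental theorem. Proof: decompose `x` according to the numbers of letters `p_t`, `q_t` (each component is
killed by `∏ sl(V_t)`). For one component, `p_t - q_t = nt t * m_t` (`FG5`). Multiply by `m_t` dual determinants of type `t` if
`m_t > 0` and by `-m_t` determinants if `m_t < 0`: the function
`x'(k k', l l') = x(k, l) ∏_{m_t < 0} dt(k'_..) ∏_{m_t > 0} dt(l'_..)` on pairs of words of the same length `P` is killed by all block
diagonal `A` (`FG5`, and `∑_j ∑_a A (k_j) a dt(update) = tr_t(A) dt`), so `FG4` applies. Contract: `x(k, l) = const * ∑_{k', l'} x'(k k', l l')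
∏ dt(k'_..) ∏ dt(l'_..)` (`∑_{k'} dt(k')^2 = (nt t)!`). In the term `σ` the letters of `l'` are matched to letters of `k` (or of `k'`, of
another type, which gives zero), the sum over `l'` gives `∏ dt(k restricted to the matched places)`, similarly for `k'`;
the remaining letters of `k` and `l` are matched with each other: a product of contractions and determinants. -/
def FG6_stmt : Prop :=
  ∀ (K Ty : Type) [Fintype K] [DecidableEq K] [Fintype Ty] [DecidableEq Ty] (ty : K → Ty),
    Function.Surjective ty → ∀ (p q : ℕ) (x : (Fin p → K) → (Fin q → K) → ℂ), KillSL ty x →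
    x ∈ FFT ty p q

/-- FG7. Properties of `evI`: it is supported on pairs of words of fixed types, and it is multiplicative for
concatenations of lists of items: (1) for every list `s` of items there are words of types `T`, `T'` such that
`evI s k l = 0` unless `k.map ty = T` and `l.map ty = T'`; (2) the lengths. -/
def FG7_stmt : Prop :=
  ∀ (K Ty : Type) [Fintype K] [DecidableEq K] [Fintype Ty] [DecidableEq Ty] (ty : K → Ty)
    (s : List (Item Ty)), ∃ T T' : List Ty, ∀ k l : List K, evI ty s k l ≠ 0 →
      k.map ty = T ∧ l.map ty = T'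

/-- FG8. Properties of `dt`: (1) derivations act by the trace, (2) the same for the transposed matrix, (3) norm,
(4) support and antisymmetry. (`dt` of the word `k` of length `nt t` is `∑_σ sign σ [k = e ∘ σ]`, up to `σ ↔ σ⁻¹`.) -/
def FG8_stmt : Prop :=
  ∀ (K Ty : Type) [Fintype K] [DecidableEq K] [Fintype Ty] [DecidableEq Ty] (ty : K → Ty) (t : Ty),
    (∀ A, BD ty A → ∀ k : Fin (nt ty t) → K,
      ∑ j, ∑ a, A (k j) a * dt ty t (List.ofFn (Function.update k j a)) =
        (∑ a, (if ty a = t then A a a else 0)) * dt ty t (List.ofFn k)) ∧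
    (∀ A, BD ty A → ∀ k : Fin (nt ty t) → K,
      ∑ j, ∑ a, A a (k j) * dt ty t (List.ofFn (Function.update k j a)) =
        (∑ a, (if ty a = t then A a a else 0)) * dt ty t (List.ofFn k)) ∧
    (∑ k : Fin (nt ty t) → K, dt ty t (List.ofFn k) ^ 2 = ((nt ty t).factorial : ℂ)) ∧
    (∀ l : List K, dt ty t l ≠ 0 → l.length = nt ty t ∧ l.Nodup ∧ ∀ a ∈ l, ty a = t) ∧
    (∀ (σ : Equiv.Perm (Fin (nt ty t))) (k : Fin (nt ty t) → K),
      dt ty t (List.ofFn (k ∘ σ)) = ((Equiv.Perm.sign σ : ℤ) : ℂ) * dt ty t (List.ofFn k))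

end

end Pool.Agent.SJ
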