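import Pool.Agent.helper47.SJ.Defs3
import Pool.Agent.helper47.SJ.SpecF
import Pool.Agent.helper28.SJ.KMK

/-!
# Project sj, part E (stage 3), second half: statements

Theorem 1' (`SU_stmt`): on products of powers of new Jacobians and a CM torus every Hodge class killed by the
Lie algebras `su` is algebraic.

Every statement `EXX_stmt` is proved in `Pool/Agent/<seat>/SJ/EXX.lean`, `import Pool.Agent.helper47.SJ.SpecE`,
`namespace Pool.Agent.SJ`, `theorem EXX (h : EYY_stmt) ... : EXX_stmt` (any statement of SpecE, SpecF, SpecP, ZSpec may be a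
hypothesis, except circularly), auxiliary lemmas prefixed `EXX_`.
-/

namespace Pool.Agent.SJ

open scoped ComplexConjugate TensorProduct
open Pool.Agent.HC Pool.Agent.HC.SJ

noncomputable section

/-! ## A. Derivations -/

/-- EA1. The derivation `dE L`: (1) on vectors, (2) Leibniz, (3) linear in `L`, (4) commutators, (5) naturality.
(`dHom L x = [[x, dE L x], [0, x]]`: compare algebra homomorphisms on vectors; (4): both sides are derivations.) -/
def EA1_stmt : Prop :=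
  (∀ (W : Type) [AddCommGroup W] [Module ℝ W] (L : W →ₗ[ℝ] W),
    (∀ w, dE L (ExteriorAlgebra.ι ℝ w) = ExteriorAlgebra.ι ℝ (L w)) ∧ dE L 1 = 0 ∧
    (∀ x y, dE L (x * y) = dE L x * y + x * dE L y)) ∧
  (∀ (W : Type) [AddCommGroup W] [Module ℝ W] (L L' : W →ₗ[ℝ] W) (c : ℝ),
    dE (L + L') = dE L + dE L' ∧ dE (c • L) = c • dE L ∧
    dE (L ∘ₗ L' - L' ∘ₗ L) = dE L ∘ₗ dE L' - dE L' ∘ₗ dE L) ∧
  (∀ (W V : Type) [AddCommGroup W] [Module ℝ W] [AddCommGroup V] [Module ℝ V] (p : W →ₗ[ℝ] V)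
    (L : W →ₗ[ℝ] W) (L' : V →ₗ[ℝ] V), p ∘ₗ L = L' ∘ₗ p →
    ∀ x, ExteriorAlgebra.map p (dE L x) = dE L' (ExteriorAlgebra.map p x))

/-- EA2. Pairing: `dE` is adjoint to the derivation of forms. (On products of vectors; Leibniz for determinants:
`AlternatingMap`/`MultilinearMap` identities, columns versus rows of `det (z_i (v_j))`.) -/
def EA2_stmt : Prop :=
  ∀ (W : Type) [AddCommGroup W] [Module ℝ W] (L : W →ₗ[ℝ] W) (k : ℕ) (z : Fin k → (W →ₗ[ℝ] ℂ))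
    (x : ExteriorAlgebra ℝ W), pair (detForm z) (dE L x) =
      ∑ j, pair (detForm (Function.update z j (z j ∘ₗ L))) x

/-- EA3. A class is invariant under `rot` iff it is killed by multiplication by `i`. (`d/dt map (rot t) x =
map (rot t) (dE i x)`; on `⋀^k` everything is a trigonometric polynomial; or in coordinates `KTY`-like: with a basis of
complex linear and conjugate linear functionals both conditions say that `(p - q) c(s) = 0`.) -/
def EA3_stmt : Prop :=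
  ∀ (W : Type) [NormedAddCommGroup W] [NormedSpace ℂ W] [FiniteDimensional ℂ W]
    (x : ExteriorAlgebra ℝ W), (∀ t : ℝ, ExteriorAlgebra.map (rot (W := W) t) x = x) ↔
      dE ((Complex.I • (LinearMap.id : W →ₗ[ℂ] W)).restrictScalars ℝ) x = 0

section general
variable {W : Type} [AddCommGroup W] [Module ℝ W]

/-- the complex operator `A + i B` on `WC W` -/
def cop (A B : W →ₗ[ℝ] W) : WC W →ₗ[ℂ] WC W := bc A + Complex.I • bc B

/-- the derivation of `HH W` extending `A + i B` -/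
def dC (A B : W →ₗ[ℝ] W) : HH W →ₗ[ℂ] HH W := (dE A).baseChange ℂ + Complex.I • (dE B).baseChange ℂ

/-- the class `h` is killed by the operator with matrix `Mx` (in coordinates) -/
def KillM {I : Type} [Fintype I] (z : I → (W →ₗ[ℝ] ℂ)) (Mx : I → I → ℂ) (h : HH W) : Prop :=
  ∀ (k : ℕ) (s : Fin k → I), ∑ j, ∑ t, Mx (s j) t *
    pairC (detForm fun j' => z (Function.update s j t j')) h = 0

end general

/-- EA4. Complex operators: (1) every complex operator is `A + i B`; (2) `dC` on products of vectors (Leibniz);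
(3) `dC A B h = 0` iff `KillM` with the matrix of `A + i B` in a dual basis. -/
def EA4_stmt : Prop :=
  ∀ (W : Type) [AddCommGroup W] [Module ℝ W] [FiniteDimensional ℝ W],
    (∀ M : WC W →ₗ[ℂ] WC W, ∃ A B : W →ₗ[ℝ] W, M = cop A B) ∧
    (∀ (A B : W →ₗ[ℝ] W) (v : WC W), dC A B (io v) = io (cop A B v)) ∧
    (∀ (A B : W →ₗ[ℝ] W) (h h' : HH W), dC A B (h * h') = dC A B h * h' + h * dC A B h') ∧
    (∀ (A B : W →ₗ[ℝ] W) (x : ExteriorAlgebra ℝ W), dC A B (1 ⊗ₜ[ℝ] x) = 0 →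
      dE A x = 0 ∧ dE B x = 0) ∧
    (∀ (I : Type) [Fintype I] [DecidableEq I] (z : I → (W →ₗ[ℝ] ℂ)) (w : I → WC W),
      (∀ i j, ev (z i) (w j) = if i = j then 1 else 0) → Submodule.span ℂ (Set.range w) = ⊤ →
      ∀ (A B : W →ₗ[ℝ] W) (Mx : I → I → ℂ), (∀ i j, ev (z i) (cop A B (w j)) = Mx i j) →
      ∀ h : HH W, dC A B h = 0 → KillM z Mx h)

/-! ## B. Polarised data -/

/-- data on the space `W`: blocks, functionals, dual basis, and an involution `ν` pairing the block `r` with the block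
`-r` -/
structure PK (d : ℕ) (W : Type) [NormedAddCommGroup W] [NormedSpace ℂ W] where
  I : Type
  [fin : Fintype I]
  [dec : DecidableEq I]
  bl : I → Un d
  hol : I → Prop
  z : I → (W →ₗ[ℝ] ℂ)
  w : I → WC W
  ν : I → I

attribute [instance] PK.fin PK.dec

/-- the torus -/
def PK.kt {d : ℕ} {W : Type} [NormedAddCommGroup W] [NormedSpace ℂ W] [FiniteDimensional ℂ W]
    (X : PK d W) (Lam : AddSubgroup W) (op : W →ₗ[ℂ] W) : KT d where
  W := W
  Lam := Lam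
  I := X.I
  bl := X.bl
  hol := X.hol
  z := X.z
  w := X.w
  op := op

/-- the class `Θ_r = ∑_{bl i = r} w_i ∧ w_{ν i}` is algebraic for `2 r < d` -/
structure PK.OK {d : ℕ} {W : Type} [NormedAddCommGroup W] [NormedSpace ℂ W] [FiniteDimensional ℂ W]
    (X : PK d W) (Lam : AddSubgroup W) (op : W →ₗ[ℂ] W) (n : ℕ) : Prop where
  ok : (X.kt Lam op).OK n
  νν : ∀ i, X.ν (X.ν i) = i
  νb : ∀ i, X.bl (X.ν i) = ng (X.bl i)
  νh : ∀ i, X.hol (X.ν i) ↔ ¬ X.hol i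
  pol : ∀ r : Un d, 2 * (r.1 : ℕ) < d →
    ∑ i ∈ Finset.univ.filter (fun i => X.bl i = r), PL [X.w i, X.w (X.ν i)] ∈ AlgC W Lam

/-- EB1. Component of a class in `AlgC` for a character. As in `KIS` (`f(T_α)` with `f(χ_S(α)) = 1` on the character of `S`,
`0` on the others). -/
def EB1_stmt : Prop :=
  ∀ (W : Type) [NormedAddCommGroup W] [NormedSpace ℂ W] [FiniteDimensional ℂ W]
    (Lam : AddSubgroup W), IsLattice Lam →
  ∀ (I : Type) [Fintype I] [DecidableEq I] (z : I → (W →ₗ[ℝ] ℂ)) (w : I → WC W),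
    (∀ i j, ev (z i) (w j) = if i = j then 1 else 0) → Submodule.span ℂ (Set.range w) = ⊤ →
  ∀ (M : Type) [Fintype M] (T : (M → ℤ) → (W →ₗ[ℂ] W)) (l : I → M → ℂ),
    (∀ α, ∀ v ∈ Lam, T α v ∈ Lam) →
    (∀ α i v, z i (T α v) = (∑ j, (α j : ℂ) * l i j) * z i v) →
  ∀ (S : Finset I) (h : HH W), h ∈ AlgC W Lam → ∃ y ∈ AlgC W Lam,
    ∀ (k : ℕ) (s : Fin k → I), Function.Injective s →
      ((∀ α : M → ℤ, ∏ i, (∑ j, (α j : ℂ) * l (s i) j) = ∏ i ∈ S, (∑ j, (α j : ℂ) * l i j)) →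
        pairC (detForm fun j => z (s j)) y = pairC (detForm fun j => z (s j)) h) ∧
      ((¬ ∀ α : M → ℤ, ∏ i, (∑ j, (α j : ℂ) * l (s i) j) = ∏ i ∈ S, (∑ j, (α j : ℂ) * l i j)) →
        pairC (detForm fun j => z (s j)) y = 0)

/-- EB2. The polarised basis of a new Jacobian. Proof: the class `x` of the curve (`L0`, `ZC1`) has coordinates
`-2i Gr(e, e')` at `(inl e, inr e')` and `0` at `(inl, inl)`, `(inr, inr)` (`ZC3`; conjugate for the last), and `Gr` is block diagonal with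
invertible blocks (`ZC2`): so `1 ⊗ x = ∑_e w_{inl e} ∧ (∑_{e'} -2i Gr(e, e') w_{inr e'})`. `I = Idx ⊕ Idx`, `ν` exchanges the two copies
(`inl e ↔ inr e`). For `i` with `2 bl i < d` keep `w_i`; for the others take `w'_{ν i}` determined by
`1 ⊗ x = ∑_{2 bl i < d} w_i ∧ w'_{ν i}`: `w'_{inr e} = ∑_{e'} -2i Gr(e, e') w_{inr e'}` if `2 e.r < d`, and
`w'_{inl e'} = ∑_e 2i Gr(e, e') w_{inl e}` if `2 e'.r > d`; `z'` = dual basis (inverse matrices). `pol` from `EB1` for the character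
`σ_r σ_{-r}` and the rule `curve`. (5): the products of the blocks for the old and the new basis are proportional. -/
def EB2_stmt : Prop :=
  ∀ (d n : ℕ) (μ : Fin (n + 1) → ℕ) (a : Fin (n + 1) → ℂ) (Lam : AddSubgroup (Idx d μ → ℂ)),
    IsCov d μ a → IsJac d μ a Lam →
    ∃ X : PK d (Idx d μ → ℂ), X.OK Lam (zact d μ (zt d)) n ∧
      (∀ r, (X.kt Lam (zact d μ (zt d))).hn r = (JT d μ Lam).hn r) ∧
      (∃ x : ExteriorAlgebra ℝ (Idx d μ → ℂ), IsClass (clC d μ a) x ∧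
        (1 : ℂ) ⊗ₜ[ℝ] x = ∑ i ∈ Finset.univ.filter (fun i => 2 * ((X.bl i).1 : ℕ) < d),
          PL [X.w i, X.w (X.ν i)]) ∧
      (∀ r, Submodule.span ℂ {v | ∃ i, X.bl i = r ∧ v = X.w i} =
        Submodule.span ℂ {v | ∃ i, (JT d μ Lam).bl i = r ∧ v = (JT d μ Lam).w i}) ∧
      (∀ (Y : KT d), Link (JT d μ Lam) Y → Link (X.kt Lam (zact d μ (zt d))) Y) ∧
      (Link (JT d μ Lam) (JT d μ Lam) →
        Link (X.kt Lam (zact d μ (zt d))) (X.kt Lam (zact d μ (zt d))))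

/-- matrix of the element `A` of `gl(V_r)` acting on `V_r` and (dually) on `V_{-r}` -/
def slM {I : Type} (ν : I → I) (A : I → I → ℂ) (u t : I) : ℂ := A u t - A (ν t) (ν u)

/-- EB3. Enough elements of `su`: for a matrix `A` supported on the block `r`, `2 r < d`, with trace zero, the complex
operator with matrix `slM ν A` is `L1 + i L2` with `L1, L2 ∈ su`. (Take `L1`, `L2` from `EA4` (1). It commutes with `ζ`, its
derivation kills `1 ⊗ x` (each `Θ_r` is killed), so `EA4` (4) gives `skew`. Traces on the block `s` of `JT` or of `X` are the same (same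
span), trace of `L1 + i L2` is zero on every block, and the trace of a real operator on the block `-s` is the conjugate of
the trace on the block `s`: so both are zero.) -/
def EB3_stmt : Prop :=
  ∀ (d n : ℕ) (μ : Fin (n + 1) → ℕ) (a : Fin (n + 1) → ℂ) (Lam : AddSubgroup (Idx d μ → ℂ)),
    IsCov d μ a → IsJac d μ a Lam →
    ∀ X : PK d (Idx d μ → ℂ), X.OK Lam (zact d μ (zt d)) n →
      (∃ x : ExteriorAlgebra ℝ (Idx d μ → ℂ), IsClass (clC d μ a) x ∧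
        (1 : ℂ) ⊗ₜ[ℝ] x = ∑ i ∈ Finset.univ.filter (fun i => 2 * ((X.bl i).1 : ℕ) < d),
          PL [X.w i, X.w (X.ν i)]) →
      (∀ r, Submodule.span ℂ {v | ∃ i, X.bl i = r ∧ v = X.w i} =
        Submodule.span ℂ {v | ∃ i, (JT d μ Lam).bl i = r ∧ v = (JT d μ Lam).w i}) →
    ∀ (r : Un d), 2 * (r.1 : ℕ) < d → ∀ A : X.I → X.I → ℂ,
      (∀ u t, A u t ≠ 0 → X.bl u = r ∧ X.bl t = r) → ∑ u, A u u = 0 →
      ∃ L1 L2 : (Idx d μ → ℂ) →ₗ[ℝ] (Idx d μ → ℂ), IsSU d μ a L1 ∧ IsSU d μ a L2 ∧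
        ∀ u t, ev (X.z u) (cop L1 L2 (X.w t)) = slM X.ν A u t

/-! ## C. The torus `V = ∏ A_i^{m_i} × B` in coordinates -/

/-- a family of polarised tori with multiplicities, and a torus `B` with a basis -/
structure Fam (k : ℕ) where
  d : Fin k → ℕ
  n : Fin k → ℕ
  m : Fin k → ℕ
  W : Fin k → Type
  [ng : ∀ i, NormedAddCommGroup (W i)]
  [ns : ∀ i, NormedSpace ℂ (W i)]
  [fd : ∀ i, FiniteDimensional ℂ (W i)]
  Lam : ∀ i, AddSubgroup (W i)
  op : ∀ i, W i →ₗ[ℂ] W i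
  X : ∀ i, PK (d i) (W i)
  B : Type
  [ngB : NormedAddCommGroup B]
  [nsB : NormedSpace ℂ B]
  [fdB : FiniteDimensional ℂ B]
  LB : AddSubgroup B
  IB : Type
  [finB : Fintype IB]
  [decB : DecidableEq IB]
  holB : IB → Prop
  zB : IB → (B →ₗ[ℝ] ℂ)
  wB : IB → WC B

attribute [instance] Fam.ng Fam.ns Fam.fd Fam.ngB Fam.nsB Fam.fdB Fam.finB Fam.decB

section fam
variable {k : ℕ} (F : Fam k)

/-- properties of the family -/
structure Fam.OK : Prop where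
  hd : ∀ i, 3 ≤ F.d i
  hn : ∀ i, 0 < F.n i
  ok : ∀ i, (F.X i).OK (F.Lam i) (F.op i) (F.n i)
  latB : IsLattice F.LB
  dualB : ∀ i j, ev (F.zB i) (F.wB j) = if i = j then 1 else 0
  spanB : Submodule.span ℂ (Set.range F.wB) = ⊤
  hzB : ∀ i, F.holB i → ∀ (c : ℂ) v, F.zB i (c • v) = c * F.zB i v
  azB : ∀ i, ¬ F.holB i → ∀ (c : ℂ) v, F.zB i (c • v) = conj c * F.zB i v

/-- `V = ∏ W_i^{m_i} × B` -/
abbrev Fam.V : Type := (∀ i, Fin (F.m i) → F.W i) × F.B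

/-- the lattice -/
def Fam.LV : AddSubgroup F.V :=
  (AddSubgroup.pi Set.univ (fun i => AddSubgroup.pi Set.univ (fun _ : Fin (F.m i) => F.Lam i))).prod
    F.LB

/-- inclusion of the copy `c` of `W_i` -/
def Fam.inc (i : Fin k) (c : Fin (F.m i)) : F.W i →ₗ[ℂ] F.V :=
  LinearMap.inl ℂ _ F.B ∘ₗ LinearMap.single ℂ (fun i => Fin (F.m i) → F.W i) i ∘ₗ
    LinearMap.single ℂ (fun _ : Fin (F.m i) => F.W i) c

/-- projection to the copy `c` of `W_i` -/
def Fam.pr (i : Fin k) (c : Fin (F.m i)) : F.V →ₗ[ℝ] F.W i :=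
  LinearMap.proj (R := ℝ) (φ := fun _ : Fin (F.m i) => F.W i) c ∘ₗ
    LinearMap.proj (R := ℝ) (φ := fun i => Fin (F.m i) → F.W i) i ∘ₗ LinearMap.fst ℝ _ F.B

/-- coordinates of `V` -/
abbrev Fam.I : Type := (Σ i, Fin (F.m i) × (F.X i).I) ⊕ F.IB

/-- functionals -/
def Fam.z : F.I → (F.V →ₗ[ℝ] ℂ) :=
  Sum.elim (fun u => (F.X u.1).z u.2.2 ∘ₗ F.pr u.1 u.2.1) (fun b => F.zB b ∘ₗ LinearMap.snd ℝ _ F.B)

/-- dual basis -/
def Fam.w : F.I → WC F.V :=
  Sum.elim (fun u => bc (re' (F.inc u.1 u.2.1)) ((F.X u.1).w u.2.2))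
    (fun b => bc (re' (LinearMap.inr ℂ _ F.B)) (F.wB b))

/-- type of a coordinate -/
def Fam.hol : F.I → Prop := Sum.elim (fun u => (F.X u.1).hol u.2.2) F.holB

/-- the matrix of the element `A ∈ gl(V_r(A_i))` on `V` -/
def Fam.M (i : Fin k) (A : (F.X i).I → (F.X i).I → ℂ) : F.I → F.I → ℂ
  | .inl ⟨i1, c1, u1⟩, .inl ⟨i2, c2, u2⟩ =>
      if h : i1 = i ∧ i2 = i then
        (if (h.1 ▸ c1 : Fin (F.m i)) = (h.2 ▸ c2 : Fin (F.m i)) then
          slM (F.X i).ν A (h.1 ▸ u1) (h.2 ▸ u2) else 0)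
      else 0
  | _, _ => 0

/-- `h` is killed by all `sl(V_r(A_i))` -/
def Fam.Kill (h : HH F.V) : Prop :=
  ∀ (i : Fin k) (r : Un (F.d i)), 2 * (r.1 : ℕ) < F.d i → ∀ A : (F.X i).I → (F.X i).I → ℂ,
    (∀ u t, A u t ≠ 0 → (F.X i).bl u = r ∧ (F.X i).bl t = r) → ∑ u, A u u = 0 →
    KillM F.z (F.M i A) h

/-- the class `Θ_r^{(c, c')} = ∑_{bl u = r} w_{c, u} ∧ w_{c', ν u}` of `A_i^{m_i}` -/
def Fam.Th (t : Σ i, Un (F.d i) × Fin (F.m i) × Fin (F.m i)) : HH F.V :=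
  ∑ u ∈ Finset.univ.filter (fun u => (F.X t.1).bl u = t.2.1),
    PL [F.w (.inl ⟨t.1, t.2.2.1, u⟩), F.w (.inl ⟨t.1, t.2.2.2, (F.X t.1).ν u⟩)]

/-- the mixed determinant of `V_r(A_i)`: `∑_σ ∏_j w_{c(σ j), u_j}`, `u` an enumeration of the block `r` -/
def Fam.De (t : Σ i, Σ _ : Fin (F.n i) → Fin (F.m i), (Fin (F.n i) → (F.X i).I)) : HH F.V :=
  ∑ σ : Equiv.Perm (Fin (F.n t.1)),
    PL (List.ofFn fun j => F.w (.inl ⟨t.1, t.2.1 (σ j), t.2.2 j⟩))

/-- the product of classes `Θ`, mixed determinants and coordinate vectors of `B` -/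
def Fam.gp (L1 : List (Σ i, Un (F.d i) × Fin (F.m i) × Fin (F.m i)))
    (L2 : List (Σ i, Σ _ : Fin (F.n i) → Fin (F.m i), (Fin (F.n i) → (F.X i).I)))
    (J : List F.IB) : HH F.V :=
  (L1.map F.Th).prod * (L2.map F.De).prod * PL (J.map fun b => F.w (.inr b))

/-- `u` enumerates the block `r` -/
def Fam.Enum {F : Fam k} (t : Σ i, Σ _ : Fin (F.n i) → Fin (F.m i), (Fin (F.n i) → (F.X i).I))
    (r : Un (F.d t.1)) : Prop :=
  Function.Injective t.2.2 ∧ ∀ j, (F.X t.1).bl (t.2.2 j) = r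

/-- the items are admissible: `2 r < d` in `L1`, enumerations of a block in `L2` -/
def Fam.Adm {F : Fam k} (L1 : List (Σ i, Un (F.d i) × Fin (F.m i) × Fin (F.m i)))
    (L2 : List (Σ i, Σ _ : Fin (F.n i) → Fin (F.m i), (Fin (F.n i) → (F.X i).I))) : Prop :=
  (∀ t ∈ L1, 2 * (t.2.1.1 : ℕ) < F.d t.1) ∧ (∀ t ∈ L2, ∃ r, Fam.Enum t r)

end fam

/-- EC1. Basis of `V`. -/
def EC1_stmt : Prop :=
  ∀ (k : ℕ) (F : Fam k), F.OK → IsLattice F.LV ∧
    (∀ i j, ev (F.z i) (F.w j) = if i = j then 1 else 0) ∧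
    Submodule.span ℂ (Set.range F.w) = ⊤ ∧
    (∀ i, F.hol i → ∀ (c : ℂ) v, F.z i (c • v) = c * F.z i v) ∧
    (∀ i, ¬ F.hol i → ∀ (c : ℂ) v, F.z i (c • v) = conj c * F.z i v)

/-- EC2. Expansion of a class in products of basis vectors, and projection to the coordinates with a property `P`
invariant under permutations. -/
def EC2_stmt : Prop :=
  ∀ (W : Type) [AddCommGroup W] [Module ℝ W] [FiniteDimensional ℝ W] (I : Type) [Fintype I]
    [DecidableEq I] (z : I → (W →ₗ[ℝ] ℂ)) (w : I → WC W),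
    (∀ i j, ev (z i) (w j) = if i = j then 1 else 0) → Submodule.span ℂ (Set.range w) = ⊤ →
    (∀ h : HH W, h = ∑ k ∈ Finset.range (Fintype.card I + 1), ∑ s : Fin k → I,
      ((k.factorial : ℂ)⁻¹ * pairC (detForm fun j => z (s j)) h) • PL (List.ofFn fun j => w (s j))) ∧
    (∀ (h : HH W) (P : ∀ k, (Fin k → I) → Prop),
      (∀ k (σ : Equiv.Perm (Fin k)) s, P k s → P k (s ∘ σ)) →
      ∃ h' : HH W, ∀ (k : ℕ) (s : Fin k → I),
        (P k s → pairC (detForm fun j => z (s j)) h' = pairC (detForm fun j => z (s j)) h) ∧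
        (¬ P k s → pairC (detForm fun j => z (s j)) h' = 0))

/-- EC3. First fundamental theorem on `V`: a class killed by all `sl(V_r(A_i))` is a combination of admissible
products. Proof: expand `h` (`EC2`); `K = Σ i, {u // 2 bl u < d_i}`, `Ty = Σ i, {r // 2 r < d_i}`; by antisymmetry only the words
with first `p` letters `(i, c, u)`, `2 bl u < d_i`, then `q` letters `(i, c, ν u)`, `2 bl u < d_i`, then letters of `B` are needed. For fixed
numbers `c` of the copies (with their `i`) and fixed letters of `B` the coefficient is a function of `(k, l) ∈ K^p × K^q` (zero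
if the `i`'s do not match), killed by `∏ sl` (`KillSL`), so `FG6` applies. `FG7`: the functions `evI` are supported on words
of fixed types, so compatible or not with the given `i`'s. `∑_{k, l} evI s k l ∏ w_{c_j, k_j} ∏ w_{c'_j, ν l_j}` is up to sign an
admissible product, by induction on `s` (permutations of the places only permute the labels, up to sign);
`∑_k dt(k) ∏_j w_{c_j, k_j} = ± De`. -/
def EC3_stmt : Prop :=
  ∀ (k : ℕ) (F : Fam k), F.OK → ∀ h : HH F.V, F.Kill h →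
    h ∈ Submodule.span ℂ {g | ∃ L1 L2 J, Fam.Adm L1 L2 ∧ g = F.gp L1 L2 J}

/-! ## D. Algebraic classes on `V` -/

/-- ED1. The classes `Θ_r^{(c, c')}` are algebraic: push `Θ_r` by `w ↦ ∑_c T_c w` (copy `c`), `T_c ∈ ℤ[ζ]`. For `c = c'` one copy; for
`c ≠ c'`: `(1, 1)` and `(1, ζ)` in the copies `c`, `c'` give `Θ^{(c,c')} + Θ^{(c',c)}` and `ζ^{-r} Θ^{(c,c')} + ζ^r Θ^{(c',c)}` modulo the classes
with one copy; `ζ^r ≠ ζ^{-r}`. -/
def ED1_stmt : Prop :=
  ∀ (k : ℕ) (F : Fam k), F.OK → ∀ t : Σ i, Un (F.d i) × Fin (F.m i) × Fin (F.m i),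
    2 * (t.2.1.1 : ℕ) < F.d t.1 → F.Th t ∈ AlgC F.V F.LV

/-- the torus `∏_l A_{i_l} × B` of a list of factors -/
abbrev Fam.Xl {k : ℕ} (F : Fam k) {N : ℕ} (i : Fin N → Fin k) : ∀ l, KT (F.d (i l)) :=
  fun l => (F.X (i l)).kt (F.Lam (i l)) (F.op (i l))

/-- ED2. Polarisation: if the class `∏_l det V_{r_l}(A_{i_l}) ⊗ β_J` on `∏_l A_{i_l} × B` (separate factors) is algebraic, then so are all
products of mixed determinants `∏_l De(i_l, c_l) * β_J` on `V`. Proof: for integer vectors `a_l ∈ ℤ^{m_{i_l}}` the homomorphism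
`(w_l)_l ↦ ∑_l ∑_c a_{l,c} inc_c w_l` pushes the class to `∏_l ∏_j (∑_c a_{l,c} w_{c, u_j}) * β_J`; combine the `a_l = ∑_{j ∈ S_l} e_{c_l(j)}`,
`S_l ⊂ Fin n`, with signs `∏_l (-1)^{n - |S_l|}`:
`∑_S (-1)^{n-|S|} ∏_j (∑_{a ∈ S} x_{a,j}) = ∑_σ ∏_j x_{σ j, j}` (inclusion-exclusion). -/
def ED2_stmt : Prop :=
  ∀ (k : ℕ) (F : Fam k), F.OK → ∀ (N : ℕ)
    (t : Fin N → Σ i, Σ _ : Fin (F.n i) → Fin (F.m i), (Fin (F.n i) → (F.X i).I))
    (r : ∀ l, Un (F.d (t l).1)), (∀ l, Fam.Enum (t l) (r l)) → ∀ J : List F.IB,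
    AlgM (VV (F.Xl fun l => (t l).1) F.B) (LV (F.Xl fun l => (t l).1) F.LB)
      (MV (F.Xl fun l => (t l).1) F.B (fun l => {r l}) ((J.map F.wB : List (WC F.B)) : Multiset _)) →
    ((List.ofFn t).map F.De).prod * PL (J.map fun b => F.w (.inr b)) ∈ AlgC F.V F.LV

/-- the family has CM on `B`, and partners -/
structure Fam.CM {k : ℕ} (F : Fam k) : Prop where
  link : ∀ i, ∃ Y : KT (F.d i), Y.OK (F.n i) ∧ Nonempty (CMData Y.W Y.Lam) ∧ Link Y Y ∧
    Link ((F.X i).kt (F.Lam i) (F.op i)) ((F.X i).kt (F.Lam i) (F.op i)) ∧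
    Link ((F.X i).kt (F.Lam i) (F.op i)) Y ∧
    ∀ r, Y.hn r = ((F.X i).kt (F.Lam i) (F.op i)).hn r

/-- difference of the numbers of complex linear and conjugate linear functionals in the block `r` of `A_i` -/
def Fam.tp {k : ℕ} (F : Fam k) (i : Fin k) (r : Un (F.d i)) : ℤ :=
  (Nat.card {u : (F.X i).I // (F.X i).bl u = r ∧ (F.X i).hol u} : ℤ) -
    Nat.card {u : (F.X i).I // (F.X i).bl u = r ∧ ¬ (F.X i).hol u}

/-! ## E. Galois conjugation and the balance formula -/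

/-- `B` in the coordinates of `KMK`, and the embeddings of the fields `ℚ(ζ_{d_i})` -/
structure Fam.QD {k : ℕ} (F : Fam k) where
  C : CMData F.B F.LB
  eB : F.IB ≃ Σ j : Fin C.r, (C.K j →+* ℂ)
  zB : ∀ b, F.zB b = KMK_z C.e C.type (eB b)
  wB : ∀ b, F.wB b = KMK_w C.e C.type (eB b)
  holB : ∀ b, F.holB b ↔ (eB b).2 ∈ C.Φ (eB b).1
  ζ : ∀ i, CyclotomicField (F.d i) ℚ
  E : ∀ i, Un (F.d i) ≃ (CyclotomicField (F.d i) ℚ →+* ℂ)
  hE : ∀ i r, E i r (ζ i) = zt (F.d i) ^ (r.1 : ℕ)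
  hζ : ∀ i, Submodule.span ℚ (Set.range fun a : Fin (F.d i) => ζ i ^ (a : ℕ)) = ⊤

section gal
variable {k : ℕ} {F : Fam k} (Q : F.QD)

/-- the fields -/
abbrev Fam.QD.K : Fin k ⊕ Fin Q.C.r → Type := KMK_K F.d Q.C.K

/-- the eigencharacter of a coordinate -/
def Fam.QD.bl : F.I → Σ j, (Q.K j →+* ℂ) :=
  Sum.elim (fun u => ⟨.inl u.1, Q.E u.1 ((F.X u.1).bl u.2.2)⟩) (fun b => ⟨.inr (Q.eB b).1, (Q.eB b).2⟩)

variable {E : Type} [Field E] [NumberField E] {ι : E →+* ℂ} (hF : Fac Q.K E ι) (τ : E →+* ℂ)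

/-- conjugate of the character `r` of `A_i` -/
def Fam.QD.ac (i : Fin k) (r : Un (F.d i)) : Un (F.d i) :=
  (Q.E i).symm (act hF τ ⟨.inl i, Q.E i r⟩).2

/-- conjugate of the coordinate `b` of `B` -/
def Fam.QD.aB (b : F.IB) : F.IB :=
  Q.eB.symm ⟨(Q.eB b).1, (act hF τ ⟨.inr (Q.eB b).1, (Q.eB b).2⟩).2⟩

open Classical in
/-- `1` for complex linear, `-1` for conjugate linear functionals -/
def Fam.ep {k : ℕ} (F : Fam k) (b : F.IB) : ℤ := if F.holB b then 1 else -1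

/-- contribution of a letter to the balance of the conjugate by `τ` -/
def Fam.QD.lt : F.I → ℚ :=
  Sum.elim (fun u => (F.tp u.1 (Q.ac hF τ u.1 ((F.X u.1).bl u.2.2)) : ℚ) / F.n u.1)
    (fun b => (F.ep (Q.aB hF τ b) : ℚ))

end gal

/-- contribution of a letter to the balance -/
def Fam.lt0 {k : ℕ} (F : Fam k) : F.I → ℚ :=
  Sum.elim (fun u => (F.tp u.1 ((F.X u.1).bl u.2.2) : ℚ) / F.n u.1) (fun b => (F.ep b : ℚ))

/-- ED3. The class `∏_l det V_{ρ_l}(A_{i_l}) ⊗ β_J` on `∏_l A_{i_l} × B` is algebraic if all conjugates are balanced.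
Proof: if `J` has a repeated letter, zero. `KMK_G` for the factors `Xl` and for partners `Yl` (`Fam.CM`) with the fields
`ℚ(ζ_{d_{i_l}})`, `C.K j` (a second `Fac` for the same `E`: `act` is determined by `ι`, because `ι` is injective), `S` =
`{(l, ρ_l)} ∪ J`; `KMK_mono`, `KMK_Bal`; `KCO`, `KCP` for `∏ Y_l × B`; `KSW`. -/
def ED3_stmt : Prop :=
  ∀ (k : ℕ) (F : Fam k), F.OK → F.CM → ∀ (Q : F.QD) (E : Type) [Field E] [NumberField E]
    (ι : E →+* ℂ) (hF : Fac Q.K E ι) (N : ℕ) (i : Fin N → Fin k) (ρ : ∀ l, Un (F.d (i l)))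
    (J : List F.IB),
    (∀ τ : E →+* ℂ, ∑ l, F.tp (i l) (Q.ac hF τ (i l) (ρ l)) +
      (J.map fun b => F.ep (Q.aB hF τ b)).sum = 0) →
    AlgM (VV (F.Xl i) F.B) (LV (F.Xl i) F.LB)
      (MV (F.Xl i) F.B (fun l => {ρ l}) ((J.map F.wB : List (WC F.B)) : Multiset _))

/-- EE0. The endomorphisms of `V`. (As in `KMK_G`, `KMK_y`.) -/
def EE0_stmt : Prop :=
  ∀ (k : ℕ) (F : Fam k), F.OK → ∀ Q : F.QD, ∃ (M : Type) (_ : Fintype M) (om : M → ∀ j, Q.K j)
    (T : (M → ℤ) → (F.V →ₗ[ℂ] F.V)), Submodule.span ℚ (Set.range om) = ⊤ ∧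
    (∀ α, ∀ v ∈ F.LV, T α v ∈ F.LV) ∧
    (∀ α i v, F.z i (T α v) = eig om α (Q.bl i) * F.z i v)

/-- EE1. Conjugates of a nonzero coordinate of a rational class. (As in `KDE`: `KZD` with `N = k`, `KRM`.) -/
def EE1_stmt : Prop :=
  ∀ (J : Type) [Fintype J] (K : J → Type) [∀ j, Field (K j)] [∀ j, NumberField (K j)] (E : Type)
    [Field E] [NumberField E] (ι : E →+* ℂ) (hF : Fac K E ι) (W : Type)
    [NormedAddCommGroup W] [NormedSpace ℂ W] [FiniteDimensional ℂ W] (Lam : AddSubgroup W),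
    IsLattice Lam →
  ∀ (I : Type) [Fintype I] [DecidableEq I] (bl : I → Σ j, (K j →+* ℂ)) (z : I → (W →ₗ[ℝ] ℂ))
    (w : I → WC W), (∀ i j, ev (z i) (w j) = if i = j then 1 else 0) →
    Submodule.span ℂ (Set.range w) = ⊤ →
  ∀ (M : Type) [Fintype M] (om : M → ∀ j, K j) (T : (M → ℤ) → (W →ₗ[ℂ] W)),
    Submodule.span ℚ (Set.range om) = ⊤ → (∀ α, ∀ v ∈ Lam, T α v ∈ Lam) →
    (∀ α i v, z i (T α v) = eig om α (bl i) * z i v) →
  ∀ (k : ℕ) (x : ExteriorAlgebra ℝ W), IsRatCl Lam k x → ∀ s : Fin k → I,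
    pair (detForm fun j => z (s j)) x ≠ 0 → ∀ τ : E →+* ℂ,
    ∃ s' : Fin k → I, pair (detForm fun j => z (s' j)) x ≠ 0 ∧
      ∀ β, Nat.card {j // bl (s' j) = act hF τ β} = Nat.card {j // bl (s j) = β}

/-- EE2. The balance formula. Proof: for `s` with a nonzero coordinate `N_u` = number of letters `(i, c, u)`. `A` diagonal on the
block `r`, `2 r < d`, trace zero: `∑_u A_u (N_u - N_{ν u}) = 0`, so `N_u - N_{ν u} = κ_{i,r}` for all `u` in the block `r`. With `ε_u = ± 1`: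
`∑_{u in r} (ε_u N_u + ε_{ν u} N_{ν u}) = κ_{i,r} tp(i, r) = (e(i, r) - e(i, -r)) tp(i, r) / n_i`, `e` = number of letters in the block; the sum
over all blocks and letters of `B` is (number of complex linear) - (number of conjugate linear), zero by invariance under
`rot`. `tp(i, -r) = - tp(i, r)`. -/
def EE2_stmt : Prop :=
  ∀ (k : ℕ) (F : Fam k), F.OK → ∀ x : ExteriorAlgebra ℝ F.V,
    (∀ t : ℝ, ExteriorAlgebra.map (rot (W := F.V) t) x = x) → F.Kill (1 ⊗ₜ[ℝ] x) →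
  ∀ (l : ℕ) (s : Fin l → F.I), pair (detForm fun j => F.z (s j)) x ≠ 0 → ∑ j, F.lt0 (s j) = 0

/-- EE3. The balance formula for all conjugates (`EE0`, `EE1`, `EE2`; `lt0` depends only on the character). -/
def EE3_stmt : Prop :=
  ∀ (k : ℕ) (F : Fam k), F.OK → ∀ (Q : F.QD) (E : Type) [Field E] [NumberField E]
    (ι : E →+* ℂ) (hF : Fac Q.K E ι) (a : ℕ) (x : ExteriorAlgebra ℝ F.V), IsHodgeCl F.LV a x →
    F.Kill (1 ⊗ₜ[ℝ] x) →
  ∀ (l : ℕ) (s : Fin l → F.I), pair (detForm fun j => F.z (s j)) x ≠ 0 →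
  ∀ τ : E →+* ℂ, ∑ j, Q.lt hF τ (s j) = 0

/-- EE4. The letters of an admissible product: the classes `Θ` contribute zero (`tp(i, -r) = - tp(i, r)`, `τ(-r) = -τ(r)`), a
mixed determinant `tp(i, τ r)`. (A coordinate `s` of a product of basis vectors is nonzero only if `s` is a permutation
of the letters.) -/
def EE4_stmt : Prop :=
  ∀ (k : ℕ) (F : Fam k), F.OK → ∀ (Q : F.QD) (E : Type) [Field E] [NumberField E]
    (ι : E →+* ℂ) (hF : Fac Q.K E ι) (τ : E →+* ℂ)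
    (L1 : List (Σ i, Un (F.d i) × Fin (F.m i) × Fin (F.m i)))
    (N : ℕ) (t : Fin N → Σ i, Σ _ : Fin (F.n i) → Fin (F.m i), (Fin (F.n i) → (F.X i).I))
    (r : ∀ l, Un (F.d (t l).1)), (∀ l, Fam.Enum (t l) (r l)) → ∀ J : List F.IB,
  ∀ (l : ℕ) (s : Fin l → F.I), pairC (detForm fun j => F.z (s j)) (F.gp L1 (List.ofFn t) J) ≠ 0 →
    ∑ j, Q.lt hF τ (s j) = ((∑ l, F.tp (t l).1 (Q.ac hF τ (t l).1 (r l)) +
      (J.map fun b => F.ep (Q.aB hF τ b)).sum : ℤ) : ℚ)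

/-! ## F. Assembly -/

/-- EF1. Theorem 1' on `V`. Proof: `E` from `KEG`; `1 ⊗ x = ∑_g c_g g`, `g` admissible products (`EC3`). Call `g` good if all its
conjugates are balanced (the right hand side of `EE4` is zero for all `τ`), `s` good if `∑ lt τ (s j) = 0` for all `τ`. By `EE4` a good
`g` has zero coordinates at the bad `s`, a bad `g` at the good `s`; by `EE3` `x` has zero coordinates at the bad `s`. So
`1 ⊗ x = ∑_{g good} c_g g` (`KND`, `EC1`). The good `g` are in `AlgC`: `ED1` for `Θ`, `ED3`, `ED2` for the rest, products by `KPR` with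
the identity of `V`. `KRE`. -/
def EF1_stmt : Prop :=
  ∀ (k : ℕ) (F : Fam k), F.OK → F.CM → Nonempty F.QD → ∀ (a : ℕ) (x : ExteriorAlgebra ℝ F.V),
    IsHodgeCl F.LV a x → F.Kill (1 ⊗ₜ[ℝ] x) → Alg F.V F.LV x

/-- the operator `L` acting diagonally on the copies of `W_i`, zero on the other factors -/
def Fam.dg {k : ℕ} (F : Fam k) (i : Fin k) (L : F.W i →ₗ[ℝ] F.W i) : F.V →ₗ[ℝ] F.V :=
  ∑ c, re' (F.inc i c) ∘ₗ L ∘ₗ F.pr i c

/-- EF2. From the operators of `su` to the matrices. (`EC1`, `EA4`.) -/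
def EF2_stmt : Prop :=
  ∀ (k : ℕ) (F : Fam k), F.OK → ∀ (i : Fin k) (A : (F.X i).I → (F.X i).I → ℂ)
    (L1 L2 : F.W i →ₗ[ℝ] F.W i),
    (∀ u t, ev ((F.X i).z u) (cop L1 L2 ((F.X i).w t)) = slM (F.X i).ν A u t) →
  ∀ x : ExteriorAlgebra ℝ F.V, dE (F.dg i L1) x = 0 → dE (F.dg i L2) x = 0 →
    KillM F.z (F.M i A) (1 ⊗ₜ[ℝ] x)

/-- EF3. THEOREM 1' from the partners. As `KF1`: `F` has the factors `A_i` with `X i` from `EB2`, `B` with the coordinates of `KMK`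
(`IB = Σ j, (C.K j →+* ℂ)`, `eB` the identity, `KMK_cyc`); `x` is transported to `V` (`KF1_fin`, `KF1_rat`); `F.CM` from `PA` and `EB2`;
`F.Kill` from `D.Kill`, `EA1` (naturality), `EB3`, `EF2`. -/
def EF3_stmt : Prop :=
  ∀ C : (d : ℕ) → (n : ℕ) → (Fin (n + 1) → ℕ) → Prop, PA_stmt C → SU_stmt C

end

end Pool.Agent.SJ
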