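import Pool.Agent.helper76.SJ.ZDefs
import Pool.Agent.helper88.SJ.VDefs

/-!
# Project sj: products of Jacobians of cyclic covers of the line and CM tori: definitions

`W ⧸ Lam` is a complex torus (definitions of `Pool.Agent.helper54.HC.TDefs`).  Its real homology is the
exterior algebra of `W` over `ℝ` (`H_1(W ⧸ Lam, ℝ) = W`); a class `x` is paired with a constant
alternating form by `pair`.

`C_a : y^d = ∏ (x - a_j)^(μ_j)` is a cyclic cover of the line, with `n + 1` finite branch points, and infinity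
(`d` does not divide `∑ μ_j`).  The differentials `om d μ a` (see `Pool.Agent.helper76.SJ.ZDefs`) are a basis
of the holomorphic differentials of the new part `A_a` of the Jacobian of `C_a` (the part where `ζ_d` acts
with primitive eigenvalues); so `A_a` is a torus `ℂ^Idx ⧸ Lam` with an Abel-Jacobi map `C_a → A_a` whose
differential is the vector of these forms.  `H_1(A_a, ℚ)` is a vector space over `ℚ(ζ_d)` of dimension `n`.
-/

namespace Pool.Agent.SJ

open scoped ComplexConjugate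
open Pool.Agent.HC Pool.Agent.HC.SJ

noncomputable section

/-! ## New parts of Jacobians -/

/-- the points `(x, y)`, `y ≠ 0`, of the curve `y^d = ∏ (x - a_j)^(μ_j)` -/
def Cv (d : ℕ) {n : ℕ} (μ : Fin (n + 1) → ℕ) (a : Fin (n + 1) → ℂ) : Set (ℂ × ℂ) :=
  {P | P.2 ^ d = fm μ a P.1 ∧ P.2 ≠ 0}

/-- multiplication by `z^r` on the coordinates `(r, k)`: for `z` a `d`-th root of unity this is the action
of the automorphism `(x, y) ↦ (x, z⁻¹ y)` of the curve -/
def zact (d : ℕ) {n : ℕ} (μ : Fin (n + 1) → ℕ) (z : ℂ) : (Idx d μ → ℂ) →ₗ[ℂ] (Idx d μ → ℂ) :=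
  LinearMap.pi fun s => (z ^ (s.r : ℕ)) • LinearMap.proj s

/-- `exp(2 π i / d)` -/
def zt (d : ℕ) : ℂ := Complex.exp (2 * Real.pi * Complex.I / d)

/-- `F` is an Abel-Jacobi map: a holomorphic map from the curve `C_a` to `ℂ^Idx ⧸ Lam` with
differential `om dx` (locally `F` is a primitive of `om dx` modulo `Lam`) -/
structure IsAJ (d : ℕ) {n : ℕ} (μ : Fin (n + 1) → ℕ) (a : Fin (n + 1) → ℂ)
    (Lam : AddSubgroup (Idx d μ → ℂ)) (F : ℂ × ℂ → (Idx d μ → ℂ)) : Prop where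
  loc : ∀ P ∈ Cv d μ a, ∃ ε > 0, ∃ G : ℂ → (Idx d μ → ℂ), ∀ Q ∈ Cv d μ a, ‖Q.1 - P.1‖ < ε →
    ‖Q.2 - P.2‖ < ε → HasDerivAt G (om d μ a Q.1 Q.2) Q.1 ∧ F Q - G Q.1 ∈ Lam

/-- `ℂ^Idx ⧸ Lam` is (up to isogeny) the new part of the Jacobian of `C_a`: a full lattice, stable
under `ζ_d`, containing the periods of `om dx` -/
structure IsJac (d : ℕ) {n : ℕ} (μ : Fin (n + 1) → ℕ) (a : Fin (n + 1) → ℂ)
    (Lam : AddSubgroup (Idx d μ → ℂ)) : Prop where
  lat : IsLattice Lam
  stab : ∀ w ∈ Lam, zact d μ (zt d) w ∈ Lam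
  aj : ∃ F : ℂ × ℂ → (Idx d μ → ℂ), IsAJ d μ a Lam F

/-- the conditions on `d`, `μ`, `a`: `C_a` is branched exactly at the (distinct) points `a_j` and infinity, with
local monodromies of the primitive characters non trivial -/
structure IsCov (d : ℕ) {n : ℕ} (μ : Fin (n + 1) → ℕ) (a : Fin (n + 1) → ℂ) : Prop where
  hd : 3 ≤ d
  hn : 0 < n
  pos : ∀ j, 0 < μ j
  lt : ∀ j, μ j < d
  inf : ¬ d ∣ ∑ j, μ j
  inj : Function.Injective a

/-! ## Pairing of forms and classes -/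

section pairing
variable {W : Type} [AddCommGroup W] [Module ℝ W]

/-- the value of the alternating form `η` on the class `x` -/
def pair {k : ℕ} {E : Type} [AddCommGroup E] [Module ℝ E] (η : W [⋀^Fin k]→ₗ[ℝ] E)
    (x : ExteriorAlgebra ℝ W) : E :=
  ExteriorAlgebra.liftAlternating (Pi.single k η : ∀ i : ℕ, W [⋀^Fin i]→ₗ[ℝ] E) x

/-- `x` is the class of pure degree `k` with `pair η x = L η` -/
def IsClass {k : ℕ} (L : (W [⋀^Fin k]→ₗ[ℝ] ℝ) → ℝ) (x : ExteriorAlgebra ℝ W) : Prop :=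
  ∀ η : (∀ i : ℕ, W [⋀^Fin i]→ₗ[ℝ] ℝ), ExteriorAlgebra.liftAlternating η x = L (η k)

end pairing

variable {W : Type} [NormedAddCommGroup W] [NormedSpace ℂ W]

/-- push forward of classes by a complex linear map -/
def push {V : Type} [NormedAddCommGroup V] [NormedSpace ℂ V] (p : W →ₗ[ℂ] V) :
    ExteriorAlgebra ℝ W →ₐ[ℝ] ExteriorAlgebra ℝ V :=
  ExteriorAlgebra.map (p.restrictScalars ℝ)

/-! ## Algebraic classes -/

/-- Real linear combinations of classes of algebraic cycles on complex tori, generated by: the class of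
a point; the classes of holomorphic maps of compact ball quotients; the classes of the curves `C_a` in
`A_a`, of the algebraic varieties `Z_{a,b}` (see `Pool.Agent.helper76.SJ.ZDefs`) in `A_a × A_b` and of the algebraic
varieties `V` (see `Pool.Agent.helper88.SJ.VDefs`) in `A_a × (A_a' × A_F)`; under the operations: linear combinations; image of a product `x × x'` under a homomorphism `(p, q)` from the product
of two tori to a torus; intersection of `x × [P]`, `P` a torus, with the fibre `W × {pt}` of a product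
`W × P`. -/
inductive Alg : (W : Type) → [NormedAddCommGroup W] → [NormedSpace ℂ W] → AddSubgroup W →
    ExteriorAlgebra ℝ W → Prop
  | one (W : Type) [NormedAddCommGroup W] [NormedSpace ℂ W] [FiniteDimensional ℂ W]
      (Lam : AddSubgroup W) : IsLattice Lam → Alg W Lam 1
  | add (W : Type) [NormedAddCommGroup W] [NormedSpace ℂ W] (Lam : AddSubgroup W)
      (x x' : ExteriorAlgebra ℝ W) : Alg W Lam x → Alg W Lam x' → Alg W Lam (x + x')
  | smul (W : Type) [NormedAddCommGroup W] [NormedSpace ℂ W] (Lam : AddSubgroup W)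
      (c : ℝ) (x : ExteriorAlgebra ℝ W) : Alg W Lam x → Alg W Lam (c • x)
  | ball (W : Type) [NormedAddCommGroup W] [NormedSpace ℂ W] [FiniteDimensional ℂ W]
      (Lam : AddSubgroup W) (k : ℕ) (M : BallQuotient k) (f : (Fin k → ℂ) → W)
      (x : ExteriorAlgebra ℝ W) : IsLattice Lam → IsMap M Lam f → IsClass (cls M f) x → Alg W Lam x
  | curve (d n : ℕ) (μ : Fin (n + 1) → ℕ) (a : Fin (n + 1) → ℂ) (Lam : AddSubgroup (Idx d μ → ℂ))
      (x : ExteriorAlgebra ℝ (Idx d μ → ℂ)) : IsCov d μ a → IsJac d μ a Lam →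
      IsClass (clC d μ a) x → Alg (Idx d μ → ℂ) Lam x
  | corr (d n : ℕ) (μ : Fin (n + 1) → ℕ) (a b : Fin (n + 1) → ℂ) (κ : ℂ)
      (Lama Lamb : AddSubgroup (Idx d μ → ℂ))
      (x : ExteriorAlgebra ℝ ((Idx d μ → ℂ) × (Idx d μ → ℂ))) :
      IsCov d μ a → IsCov d μ b → κ ^ d = ∏ j, (lam b j / lam a j) ^ μ j →
      IsJac d μ a Lama → IsJac d μ b Lamb →
      IsClass (clZ d μ a b κ) x → Alg ((Idx d μ → ℂ) × (Idx d μ → ℂ)) (Lama.prod Lamb) x
  | deg (d m : ℕ) (μ : Fin (m + 2) → ℕ) (a : Fin (m + 2) → ℂ) (a' : Fin (m + 1) → ℂ) (κ : ℂ)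
      (La : AddSubgroup (Idx d μ → ℂ)) (La' : AddSubgroup (Idx d (mg d μ) → ℂ))
      (LF : AddSubgroup (Idx d (nu μ) → ℂ))
      (x : ExteriorAlgebra ℝ ((Idx d μ → ℂ) × ((Idx d (mg d μ) → ℂ) × (Idx d (nu μ) → ℂ)))) :
      IsCov d μ a → IsCov d (mg d μ) a' → IsCov d (nu μ) e2 → IsJac d μ a La →
      IsJac d (mg d μ) a' La' → IsJac d (nu μ) e2 LF → IsClass (clV d μ a a' κ) x →
      Alg ((Idx d μ → ℂ) × ((Idx d (mg d μ) → ℂ) × (Idx d (nu μ) → ℂ))) (La.prod (La'.prod LF)) x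
  | prod (W W' V : Type) [NormedAddCommGroup W] [NormedSpace ℂ W] [NormedAddCommGroup W']
      [NormedSpace ℂ W'] [NormedAddCommGroup V] [NormedSpace ℂ V] [FiniteDimensional ℂ V]
      (Lam : AddSubgroup W) (Lam' : AddSubgroup W') (LamV : AddSubgroup V)
      (p : W →ₗ[ℂ] V) (q : W' →ₗ[ℂ] V) (x : ExteriorAlgebra ℝ W) (x' : ExteriorAlgebra ℝ W') :
      IsLattice LamV → (∀ w ∈ Lam, p w ∈ LamV) → (∀ w ∈ Lam', q w ∈ LamV) →
      Alg W Lam x → Alg W' Lam' x' → Alg V LamV (push p x * push q x')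
  | slice (W P V : Type) [NormedAddCommGroup W] [NormedSpace ℂ W] [NormedAddCommGroup P]
      [NormedSpace ℂ P] [NormedAddCommGroup V] [NormedSpace ℂ V] [FiniteDimensional ℂ V]
      (Lam : AddSubgroup W) (LamP : AddSubgroup P) (LamV : AddSubgroup V)
      (p : W →ₗ[ℂ] V) (q : P →ₗ[ℂ] V) (x : ExteriorAlgebra ℝ W)
      (e : Module.Basis (Fin (Module.finrank ℝ P)) ℝ P) :
      IsLattice Lam → IsLattice LamP → Function.Bijective (fun u : W × P => p u.1 + q u.2) →
      (∀ v, v ∈ LamV ↔ ∃ w ∈ Lam, ∃ u ∈ LamP, v = p w + q u) →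
      Alg V LamV (push p x * push q (List.ofFn fun i => ExteriorAlgebra.ι ℝ (e i)).prod) →
      Alg W Lam x

/-! ## Products of new parts of Jacobians and CM tori -/

/-- `W ⧸ Lam` is isogenous to a product of new parts of Jacobians of cyclic covers of the line
`y^d_i = ∏ (x - a_ij)^μ_ij` and of a torus `B ⧸ LB` of CM type. -/
structure SJData (W : Type) [NormedAddCommGroup W] [NormedSpace ℂ W] (Lam : AddSubgroup W) where
  k : ℕ
  d : Fin k → ℕ
  n : Fin k → ℕ
  μ : ∀ i, Fin (n i + 1) → ℕ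
  a : ∀ i, Fin (n i + 1) → ℂ
  cov : ∀ i, IsCov (d i) (μ i) (a i)
  L : ∀ i, AddSubgroup (Idx (d i) (μ i) → ℂ)
  jac : ∀ i, IsJac (d i) (μ i) (a i) (L i)
  B : Type
  [ng : NormedAddCommGroup B]
  [ns : NormedSpace ℂ B]
  [fd : FiniteDimensional ℂ B]
  LB : AddSubgroup B
  latB : IsLattice LB
  cm : CMData B LB
  /-- the maps from the factors to `W` -/
  p : ∀ i, (Idx (d i) (μ i) → ℂ) →ₗ[ℂ] W
  q : B →ₗ[ℂ] W
  bij : Function.Bijective (fun v : (∀ i, Idx (d i) (μ i) → ℂ) × B => ∑ i, p i (v.1 i) + q v.2)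
  plat : ∀ i, ∀ w ∈ L i, p i w ∈ Lam
  qlat : ∀ w ∈ LB, q w ∈ Lam

attribute [instance] SJData.ng SJData.ns SJData.fd

/-- rational homology classes of degree `k`: rational combinations of products of `k` elements of `Lam` -/
def IsRatCl (Lam : AddSubgroup W) (k : ℕ) (x : ExteriorAlgebra ℝ W) : Prop :=
  ∃ (N : ℕ) (r : Fin N → ℚ) (v : Fin N → Fin k → W), (∀ i j, v i j ∈ Lam) ∧
    x = ∑ i, (r i : ℝ) • ExteriorAlgebra.ιMulti ℝ k (v i)

/-- rational Hodge classes of degree `2 k`: rational and invariant under multiplication by `exp(it)` (so of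
type `(-k, -k)`) -/
structure IsHodgeCl (Lam : AddSubgroup W) (k : ℕ) (x : ExteriorAlgebra ℝ W) : Prop where
  rat : IsRatCl Lam (2 * k) x
  type : ∀ t : ℝ, ExteriorAlgebra.map (rot (W := W) t) x = x

/-- `g` is an element of `SL_n(ℚ(ζ_d) ⊗ ℝ)` acting on `H_1(A_a, ℝ) = ℂ^Idx`: it is linear over `ℝ`, commutes with
`ζ_d` and has determinant one on the `n`-dimensional eigenspaces of `ζ_d` on `ℂ^Idx ⊗ ℂ` -/
structure IsSL (d : ℕ) {n : ℕ} (μ : Fin (n + 1) → ℕ) (g : (Idx d μ → ℂ) →ₗ[ℝ] (Idx d μ → ℂ)) :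
    Prop where
  comm : ∀ w, g (zact d μ (zt d) w) = zact d μ (zt d) (g w)
  det : ∀ (c : ℂ) (z : Fin n → ((Idx d μ → ℂ) →ₗ[ℝ] ℂ)),
    (∀ i w, z i (zact d μ (zt d) w) = c * z i w) →
    detForm (fun i => (z i).comp g) = detForm z

/-- `x` is invariant under the groups `SL_{n_i}(ℚ(ζ_{d_i}) ⊗ ℝ)` acting on the factors `A_i` -/
def SJData.Inv {Lam : AddSubgroup W} (D : SJData W Lam) (x : ExteriorAlgebra ℝ W) : Prop :=
  ∀ (g : ∀ i, (Idx (D.d i) (D.μ i) → ℂ) →ₗ[ℝ] (Idx (D.d i) (D.μ i) → ℂ)) (G : W →ₗ[ℝ] W),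
    (∀ i, IsSL (D.d i) (D.μ i) (g i)) → (∀ i w, G (D.p i w) = D.p i (g i w)) →
    (∀ w, G (D.q w) = D.q w) → ExteriorAlgebra.map G x = x

/-- the family `D` satisfies the condition `C` on the branching data: first stage `μ = 1`, second stage all -/
def SJData.All {Lam : AddSubgroup W} (D : SJData W Lam)
    (C : (d : ℕ) → (n : ℕ) → (Fin (n + 1) → ℕ) → Prop) : Prop := ∀ i, C (D.d i) (D.n i) (D.μ i)

/-- THEOREM 1. `W ⧸ Lam` a complex torus isogenous to a product of new parts of Jacobians of cyclic covers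
of the line and of a CM torus. Every Hodge class invariant under the groups `SL` of the factors is
algebraic. -/
def Det_stmt (C : (d : ℕ) → (n : ℕ) → (Fin (n + 1) → ℕ) → Prop) : Prop :=
  ∀ (W : Type) [NormedAddCommGroup W] [NormedSpace ℂ W] [FiniteDimensional ℂ W]
    (Lam : AddSubgroup W), IsLattice Lam →
  ∀ (D : SJData W Lam), D.All C → ∀ (k : ℕ) (x : ExteriorAlgebra ℝ W), IsHodgeCl Lam k x →
    D.Inv x → Alg W Lam x

/-! ## Weil classes -/

/-- eigenfunctional of `A` with eigenvalue `c` -/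
def IsEig (A : W →ₗ[ℂ] W) (c : ℂ) (z : W →ₗ[ℝ] ℂ) : Prop := ∀ w, z (A w) = c * z w

/-- `x ∈ H_2m(W ⧸ Lam, ℝ)` is a Weil class for the endomorphism `A`: it lies in the sum of the top exterior
powers of the eigenspaces of `A` on `W ⊗ ℂ` (of dimension `2m`): the form `z_1 ∧ ... ∧ z_2m` vanishes on `x` if
the `z_i` are eigenfunctionals of `A` whose eigenvalues are not all equal. -/
structure IsWeil (A : W →ₗ[ℂ] W) (m : ℕ) (x : ExteriorAlgebra ℝ W) : Prop where
  deg : x ∈ (⋀[ℝ]^(2 * m) W : Submodule ℝ (ExteriorAlgebra ℝ W))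
  weil : ∀ (c : Fin (2 * m) → ℂ) (z : Fin (2 * m) → (W →ₗ[ℝ] ℂ)), (∀ i, IsEig A (c i) (z i)) →
    (∃ i j, c i ≠ c j) → pair (detForm z) x = 0

/-- THEOREM 2. `W ⧸ Lam` a complex torus isogenous to a product of new parts of Jacobians of cyclic
covers of the line and of a CM torus, `A` an endomorphism acting on the Jacobian factors by elements
`P_i(ζ_{d_i})` of `ℤ[ζ_{d_i}]` and on the CM torus by any endomorphism, generating a field `F = ℚ(A)` (with minimal
polynomial `mu`). If `W ⧸ Lam` is of Weil type: all roots of `mu` are eigenvalues of `A` on `W` with the same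
multiplicity `m`, then every Weil class (element of the real span of `∧^2m_F H_1(W ⧸ Lam, ℚ)`) is
algebraic. -/
def Weil_stmt (C : (d : ℕ) → (n : ℕ) → (Fin (n + 1) → ℕ) → Prop) : Prop :=
  ∀ (W : Type) [NormedAddCommGroup W] [NormedSpace ℂ W] [FiniteDimensional ℂ W]
    (Lam : AddSubgroup W), IsLattice Lam →
  ∀ (D : SJData W Lam), D.All C → ∀ (A : W →ₗ[ℂ] W) (P : Fin D.k → Polynomial ℤ)
    (AB : D.B →ₗ[ℂ] D.B) (mu : Polynomial ℚ) (m : ℕ),
  (∀ i w, A (D.p i w) = D.p i (Polynomial.aeval (zact (D.d i) (D.μ i) (zt (D.d i))) (P i) w)) →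
  (∀ w ∈ D.LB, AB w ∈ D.LB) → (∀ w, A (D.q w) = D.q (AB w)) →
  Irreducible mu → Polynomial.aeval A (mu.map (algebraMap ℚ ℂ)) = 0 →
  (∀ c : ℂ, Polynomial.aeval c mu = 0 → Module.finrank ℂ (Module.End.eigenspace A c) = m) →
  ∀ x : ExteriorAlgebra ℝ W, IsWeil A m x → Alg W Lam x

end

end Pool.Agent.SJ
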