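import Pool.Agent.helper47.SJ.SpecP

/-!
# Project sj, stage 3: definitions (powers of new Jacobians, unitary groups)
-/

namespace Pool.Agent.SJ

open scoped ComplexConjugate TensorProduct
open Pool.Agent.HC Pool.Agent.HC.SJ

noncomputable section

/-! ## Derivations of the exterior algebra -/

section deriv
variable {W : Type} [AddCommGroup W] [Module ℝ W]

/-- `w ↦ [[w, L w], [0, w]]` -/
def dMat (L : W →ₗ[ℝ] W) : W →ₗ[ℝ] Matrix (Fin 2) (Fin 2) (ExteriorAlgebra ℝ W) where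
  toFun w := !![ExteriorAlgebra.ι ℝ w, ExteriorAlgebra.ι ℝ (L w); 0, ExteriorAlgebra.ι ℝ w]
  map_add' w w' := by
    ext i j
    fin_cases i <;> fin_cases j <;> simp
  map_smul' c w := by
    ext i j
    fin_cases i <;> fin_cases j <;> simp

theorem dMat_sq (L : W →ₗ[ℝ] W) (w : W) : dMat L w * dMat L w = 0 := by
  have h : ExteriorAlgebra.ι ℝ w * ExteriorAlgebra.ι ℝ (L w) +
      ExteriorAlgebra.ι ℝ (L w) * ExteriorAlgebra.ι ℝ w = 0 := by
    have h1 := ExteriorAlgebra.ι_sq_zero (R := ℝ) (w + L w)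
    rw [map_add, mul_add, add_mul, add_mul, ExteriorAlgebra.ι_sq_zero,
      ExteriorAlgebra.ι_sq_zero, zero_add, add_zero] at h1
    rw [← h1, add_comm]
  ext i j
  fin_cases i <;> fin_cases j <;> simp [dMat, Matrix.mul_apply, Fin.sum_univ_two, h]

/-- `x ↦ [[x, dE L x], [0, x]]` -/
def dHom (L : W →ₗ[ℝ] W) :
    ExteriorAlgebra ℝ W →ₐ[ℝ] Matrix (Fin 2) (Fin 2) (ExteriorAlgebra ℝ W) :=
  ExteriorAlgebra.lift ℝ ⟨dMat L, dMat_sq L⟩

/-- the derivation of the exterior algebra extending `L` -/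
def dE (L : W →ₗ[ℝ] W) : ExteriorAlgebra ℝ W →ₗ[ℝ] ExteriorAlgebra ℝ W where
  toFun x := dHom L x 0 1
  map_add' x y := by simp
  map_smul' c x := by simp

end deriv

/-! ## The special unitary Lie algebra of a new Jacobian -/

/-- `L ∈ su(H_1(A_a, ℝ))`: linear over `ℝ`, commutes with `ζ_d`, infinitesimally preserves the class of the
curve (the polarisation), and has trace zero on the eigenspaces of `ζ_d` -/
structure IsSU (d : ℕ) {n : ℕ} (μ : Fin (n + 1) → ℕ) (a : Fin (n + 1) → ℂ)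
    (L : (Idx d μ → ℂ) →ₗ[ℝ] (Idx d μ → ℂ)) : Prop where
  comm : ∀ w, L (zact d μ (zt d) w) = zact d μ (zt d) (L w)
  skew : ∀ x : ExteriorAlgebra ℝ (Idx d μ → ℂ), IsClass (clC d μ a) x → dE L x = 0
  tr : ∀ r : Un d, ∑ i ∈ Finset.univ.filter (fun i => (JT d μ ⊥).bl i = r),
    ev ((JT d μ ⊥).z i ∘ₗ L) ((JT d μ ⊥).w i) = 0

/-- `W ⧸ Lam` is isogenous to a product of powers of new parts of Jacobians of cyclic covers of the line
and of a torus of CM type -/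
structure SJPow (W : Type) [NormedAddCommGroup W] [NormedSpace ℂ W] (Lam : AddSubgroup W) where
  k : ℕ
  d : Fin k → ℕ
  n : Fin k → ℕ
  μ : ∀ i, Fin (n i + 1) → ℕ
  a : ∀ i, Fin (n i + 1) → ℂ
  cov : ∀ i, IsCov (d i) (μ i) (a i)
  L : ∀ i, AddSubgroup (Idx (d i) (μ i) → ℂ)
  jac : ∀ i, IsJac (d i) (μ i) (a i) (L i)
  m : Fin k → ℕ
  B : Type
  [ng : NormedAddCommGroup B]
  [ns : NormedSpace ℂ B]
  [fd : FiniteDimensional ℂ B]
  LB : AddSubgroup B
  latB : IsLattice LB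
  cm : CMData B LB
  /-- the maps from the factors to `W` -/
  p : ∀ i, Fin (m i) → ((Idx (d i) (μ i) → ℂ) →ₗ[ℂ] W)
  q : B →ₗ[ℂ] W
  bij : Function.Bijective (fun v : (∀ i, Fin (m i) → (Idx (d i) (μ i) → ℂ)) × B =>
    ∑ i, ∑ c, p i c (v.1 i c) + q v.2)
  plat : ∀ i c, ∀ w ∈ L i, p i c w ∈ Lam
  qlat : ∀ w ∈ LB, q w ∈ Lam

attribute [instance] SJPow.ng SJPow.ns SJPow.fd

variable {W : Type} [NormedAddCommGroup W] [NormedSpace ℂ W]

/-- all branching data satisfy `C` -/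
def SJPow.All {Lam : AddSubgroup W} (D : SJPow W Lam)
    (C : (d : ℕ) → (n : ℕ) → (Fin (n + 1) → ℕ) → Prop) : Prop := ∀ i, C (D.d i) (D.n i) (D.μ i)

/-- `x` is killed by the Lie algebras `su(H_1(A_i, ℝ))`, acting diagonally on the power `A_i^{m_i}` -/
def SJPow.Kill {Lam : AddSubgroup W} (D : SJPow W Lam) (x : ExteriorAlgebra ℝ W) : Prop :=
  ∀ (i : Fin D.k) (L : (Idx (D.d i) (D.μ i) → ℂ) →ₗ[ℝ] (Idx (D.d i) (D.μ i) → ℂ))
    (G : W →ₗ[ℝ] W), IsSU (D.d i) (D.μ i) (D.a i) L → (∀ c w, G (D.p i c w) = D.p i c (L w)) →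
    (∀ i', i' ≠ i → ∀ c w, G (D.p i' c w) = 0) → (∀ w, G (D.q w) = 0) → dE G x = 0

/-- THEOREM 1'. On products of powers of new Jacobians and a CM torus, every Hodge class killed by the
Lie algebras `su` of the factors is algebraic. -/
def SU_stmt (C : (d : ℕ) → (n : ℕ) → (Fin (n + 1) → ℕ) → Prop) : Prop :=
  ∀ (W : Type) [NormedAddCommGroup W] [NormedSpace ℂ W] [FiniteDimensional ℂ W]
    (Lam : AddSubgroup W), IsLattice Lam →
  ∀ (D : SJPow W Lam), D.All C → ∀ (k : ℕ) (x : ExteriorAlgebra ℝ W), IsHodgeCl Lam k x →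
    D.Kill x → Alg W Lam x

end

end Pool.Agent.SJ
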