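import Pool.Agent.helper47.SJ.Defs

/-!
# Project sj, part P1 (linear algebra of classes): definitions

`AlgM W Lam m`, `m` a multiset of vectors of `H_1(W ⧸ Lam, ℂ) = ℂ ⊗ W`: the product (up to sign) of the
elements of `m` is in the complex span of the algebraic classes.
-/

namespace Pool.Agent.SJ

open scoped ComplexConjugate TensorProduct
open Pool.Agent.HC Pool.Agent.HC.SJ

noncomputable section

/-- `H_1(W ⧸ Lam, ℂ)` -/
abbrev WC (W : Type) [AddCommGroup W] [Module ℝ W] : Type := ℂ ⊗[ℝ] W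

/-- `H_*(W ⧸ Lam, ℂ)` -/
abbrev HH (W : Type) [AddCommGroup W] [Module ℝ W] : Type := ℂ ⊗[ℝ] ExteriorAlgebra ℝ W

section general
variable {W : Type} [AddCommGroup W] [Module ℝ W]

/-- inclusion of `H_1` -/
def io : WC W →ₗ[ℂ] HH W := (ExteriorAlgebra.ι ℝ : W →ₗ[ℝ] ExteriorAlgebra ℝ W).baseChange ℂ

/-- product of a list of vectors -/
def PL (l : List (WC W)) : HH W := (l.map io).prod

/-- complex extension of a functional -/
def ev (z : W →ₗ[ℝ] ℂ) : WC W →ₗ[ℂ] ℂ := z.liftBaseChange ℂ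

/-- complex extension of a linear map -/
def bc {V : Type} [AddCommGroup V] [Module ℝ V] (p : W →ₗ[ℝ] V) : WC W →ₗ[ℂ] WC V := p.baseChange ℂ

/-- complex extension of the map of exterior algebras -/
def hm' {V : Type} [AddCommGroup V] [Module ℝ V] (p : W →ₗ[ℝ] V) : HH W →ₐ[ℂ] HH V :=
  Algebra.TensorProduct.map (AlgHom.id ℂ ℂ) (ExteriorAlgebra.map p)

/-- pairing of a complex form with a complex class -/
def pairC {k : ℕ} (η : W [⋀^Fin k]→ₗ[ℝ] ℂ) : HH W →ₗ[ℂ] ℂ :=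
  (ExteriorAlgebra.liftAlternating (Pi.single k η : ∀ i : ℕ, W [⋀^Fin i]→ₗ[ℝ] ℂ)).liftBaseChange ℂ

/-- `c ⊗ x ↦ g(c) x` (for `g` the real or imaginary part: real or imaginary part of a class) -/
def prt (g : ℂ →ₗ[ℝ] ℝ) : HH W →ₗ[ℝ] ExteriorAlgebra ℝ W :=
  (TensorProduct.lid ℝ (ExteriorAlgebra ℝ W)).toLinearMap ∘ₗ g.rTensor (ExteriorAlgebra ℝ W)

end general

variable {W : Type} [NormedAddCommGroup W] [NormedSpace ℂ W]

/-- a complex linear map, over `ℝ` -/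
abbrev re' {V : Type} [NormedAddCommGroup V] [NormedSpace ℂ V] (p : W →ₗ[ℂ] V) : W →ₗ[ℝ] V :=
  p.restrictScalars ℝ

variable (W) in
/-- complex span of the algebraic classes -/
def AlgC (Lam : AddSubgroup W) : Submodule ℂ (HH W) :=
  Submodule.span ℂ {h | ∃ x : ExteriorAlgebra ℝ W, Alg W Lam x ∧ h = 1 ⊗ₜ[ℝ] x}

variable (W) in
/-- the product of the elements of `m`, in any order, is in the complex span of the algebraic classes -/
def AlgM (Lam : AddSubgroup W) (m : Multiset (WC W)) : Prop :=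
  ∀ l : List (WC W), (l : Multiset (WC W)) = m → PL l ∈ AlgC W Lam

/-- the component of `w` of type `(1,0)`, resp. `(0,1)`: complex linear functionals vanish on `av w`,
conjugate linear ones on `hv w` -/
def hv (w : W) : WC W := (1 / 2 : ℂ) • (1 ⊗ₜ[ℝ] w - Complex.I ⊗ₜ[ℝ] (Complex.I • w))

def av (w : W) : WC W := (1 / 2 : ℂ) • (1 ⊗ₜ[ℝ] w + Complex.I ⊗ₜ[ℝ] (Complex.I • w))

/-- a complex linear functional, and its conjugate, over `ℝ` -/
def zh (f : W →ₗ[ℂ] ℂ) : W →ₗ[ℝ] ℂ := f.restrictScalars ℝ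

def za (f : W →ₗ[ℂ] ℂ) : W →ₗ[ℝ] ℂ := Complex.conjAe.toLinearMap ∘ₗ f.restrictScalars ℝ

/-! ## Tori with an action of `ℤ[ζ_d]` -/

/-- units modulo `d` -/
abbrev Un (d : ℕ) : Type := {r : Fin d // Nat.Coprime (r : ℕ) d}

/-- the negative of a unit modulo `d` -/
def ng {d : ℕ} (r : Un d) : Un d :=
  ⟨⟨(d - (r.1 : ℕ)) % d, Nat.mod_lt _ r.1.pos⟩, by
    have h1 : Nat.Coprime (d - (r.1 : ℕ)) d :=
      (Nat.coprime_self_sub_left (le_of_lt r.1.2)).mpr r.2
    show Nat.Coprime ((d - (r.1 : ℕ)) % d) d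
    rwa [Nat.coprime_iff_gcd_eq_one, ← Nat.gcd_rec, Nat.gcd_comm, ← Nat.coprime_iff_gcd_eq_one]⟩

/-- A torus with an action `op` of `ζ_d`, with eigenfunctionals `z i`, `i ∈ I`, `bl i` the character, and
vectors `w i` of `H_1(W ⧸ Lam, ℂ)` (the dual basis); `hol i` means that `z i` is complex linear. -/
structure KT (d : ℕ) where
  W : Type
  [ng : NormedAddCommGroup W]
  [ns : NormedSpace ℂ W]
  [fd : FiniteDimensional ℂ W]
  Lam : AddSubgroup W
  I : Type
  [fin : Fintype I]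
  [dec : DecidableEq I]
  bl : I → Un d
  hol : I → Prop
  z : I → (W →ₗ[ℝ] ℂ)
  w : I → WC W
  op : W →ₗ[ℂ] W

attribute [instance] KT.ng KT.ns KT.fd KT.fin KT.dec

/-- the properties of the data: `H_1` has dimension `n` over `ℚ(ζ_d)` -/
structure KT.OK {d : ℕ} (X : KT d) (n : ℕ) : Prop where
  lat : IsLattice X.Lam
  card : ∀ r, (Finset.univ.filter (fun i => X.bl i = r)).card = n
  dual : ∀ i j, ev (X.z i) (X.w j) = if i = j then 1 else 0
  span : Submodule.span ℂ (Set.range X.w) = ⊤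
  hz : ∀ i, X.hol i → ∀ (c : ℂ) v, X.z i (c • v) = c * X.z i v
  az : ∀ i, ¬ X.hol i → ∀ (c : ℂ) v, X.z i (c • v) = conj c * X.z i v
  op_lat : ∀ v ∈ X.Lam, X.op v ∈ X.Lam
  op_z : ∀ i v, X.z i (X.op v) = zt d ^ ((X.bl i).1 : ℕ) * X.z i v

/-- the basis of the eigenspace with character `r` -/
def KT.blk {d : ℕ} (X : KT d) (r : Un d) : Multiset (WC X.W) :=
  (Finset.univ.filter (fun i => X.bl i = r)).val.map X.w

/-- number of complex linear functionals with character `r` -/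
def KT.hn {d : ℕ} (X : KT d) (r : Un d) : ℕ := Nat.card {i : X.I // X.bl i = r ∧ X.hol i}

/-- inclusions of the factors of a product -/
abbrev inL (W V : Type) [NormedAddCommGroup W] [NormedSpace ℂ W] [NormedAddCommGroup V]
    [NormedSpace ℂ V] : WC W →ₗ[ℂ] WC (W × V) := bc (re' (LinearMap.inl ℂ W V))

abbrev inR (W V : Type) [NormedAddCommGroup W] [NormedSpace ℂ W] [NormedAddCommGroup V]
    [NormedSpace ℂ V] : WC V →ₗ[ℂ] WC (W × V) := bc (re' (LinearMap.inr ℂ W V))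

/-- for all characters `r`, the class `det V_r(X) ⊗ det V_{-r}(Y)` on `X × Y` is algebraic -/
def Link {d : ℕ} (X Y : KT d) : Prop :=
  ∀ r : Un d, AlgM (X.W × Y.W) (X.Lam.prod Y.Lam)
    ((X.blk r).map (inL X.W Y.W) + (Y.blk (ng r)).map (inR X.W Y.W))

/-- the new part of the Jacobian of a cyclic cover -/
def JT (d : ℕ) {n : ℕ} (μ : Fin (n + 1) → ℕ) (Lam : AddSubgroup (Idx d μ → ℂ)) : KT d where
  W := Idx d μ → ℂ
  Lam := Lam
  I := Idx d μ ⊕ Idx d μ
  bl := Sum.elim (fun s => ⟨s.r, s.cop⟩) (fun s => ng ⟨s.r, s.cop⟩)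
  hol := fun i => i.isLeft
  z := Sum.elim (fun s => zh (LinearMap.proj s)) (fun s => za (LinearMap.proj s))
  w := Sum.elim (fun s => hv (Pi.single s 1)) (fun s => av (Pi.single s 1))
  op := zact d μ (zt d)

/-! ## Tori with multiplication by a product of number fields -/

/-- A torus with multiplication by `∏ K_j`: functionals `z i`, dual basis `w i`, eigenfunctionals with
eigencharacter `x ↦ φ(x_j)`, `bl i = (j, φ)`; `T α` is the endomorphism `∑ α_μ om_μ`, `om_μ ∈ ∏ K_j`. -/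
structure GT (J : Type) (K : J → Type) [∀ j, Field (K j)] (W : Type) [NormedAddCommGroup W]
    [NormedSpace ℂ W] where
  I : Type
  [fin : Fintype I]
  [dec : DecidableEq I]
  bl : I → Σ j, (K j →+* ℂ)
  hol : I → Prop
  z : I → (W →ₗ[ℝ] ℂ)
  w : I → WC W
  M : Type
  [finM : Fintype M]
  om : M → ∀ j, K j
  T : (M → ℤ) → (W →ₗ[ℂ] W)

attribute [instance] GT.fin GT.dec GT.finM

section GT
variable {J : Type} {K : J → Type} [∀ j, Field (K j)]

/-- eigenvalue of `T α` at `(j, φ)` -/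
def eig {M : Type} [Fintype M] (om : M → ∀ j, K j) (α : M → ℤ) (β : Σ j, (K j →+* ℂ)) : ℂ :=
  ∑ μ, (α μ : ℂ) * β.2 (om μ β.1)

structure GT.OK [∀ j, NumberField (K j)] (X : GT J K W) (Lam : AddSubgroup W) : Prop where
  lat : IsLattice Lam
  pos : ∀ β, ∃ i, X.bl i = β
  card : ∀ (j : J) (φ φ' : K j →+* ℂ),
    Nat.card {i // X.bl i = ⟨j, φ⟩} = Nat.card {i // X.bl i = ⟨j, φ'⟩}
  dual : ∀ i j, ev (X.z i) (X.w j) = if i = j then 1 else 0
  span : Submodule.span ℂ (Set.range X.w) = ⊤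
  hz : ∀ i, X.hol i → ∀ (c : ℂ) v, X.z i (c • v) = c * X.z i v
  az : ∀ i, ¬ X.hol i → ∀ (c : ℂ) v, X.z i (c • v) = conj c * X.z i v
  om_span : Submodule.span ℚ (Set.range X.om) = ⊤
  T_lat : ∀ α, ∀ v ∈ Lam, X.T α v ∈ Lam
  T_z : ∀ α i v, X.z i (X.T α v) = eig X.om α (X.bl i) * X.z i v

open Classical in
/-- the product of all `w i` in the blocks of `S` -/
def GT.mono (X : GT J K W) (S : Finset (Σ j, (K j →+* ℂ))) : Multiset (WC W) :=
  (Finset.univ.filter (fun i => X.bl i ∈ S)).val.map X.w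

/-- the class `mono S` is of type `(p, p)` -/
def GT.Bal (X : GT J K W) (S : Finset (Σ j, (K j →+* ℂ))) : Prop :=
  Nat.card {i // X.bl i ∈ S ∧ X.hol i} = Nat.card {i // X.bl i ∈ S ∧ ¬ X.hol i}

/-- `E` is a Galois number field with embedding `ι` through which all embeddings of the `K_j` factor -/
structure Fac (K : J → Type) [∀ j, Field (K j)] (E : Type) [Field E] [NumberField E]
    (ι : E →+* ℂ) : Prop where
  gal : IsGalois ℚ E
  fac : ∀ (j : J) (φ : K j →+* ℂ), ∃ ψ : K j →+* E, ι.comp ψ = φ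

/-- conjugation: `(j, ι ∘ ψ) ↦ (j, τ ∘ ψ)` -/
def act {E : Type} [Field E] [NumberField E] {ι : E →+* ℂ} (h : Fac K E ι) (τ : E →+* ℂ)
    (β : Σ j, (K j →+* ℂ)) : Σ j, (K j →+* ℂ) := ⟨β.1, τ.comp (h.fac β.1 β.2).choose⟩

open Classical in
/-- all conjugates of `mono S` are of type `(p, p)` -/
def GT.BalAll (X : GT J K W) {E : Type} [Field E] [NumberField E] {ι : E →+* ℂ} (h : Fac K E ι)
    (S : Finset (Σ j, (K j →+* ℂ))) : Prop := ∀ τ : E →+* ℂ, X.Bal (S.image (act h τ))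

end GT

/-! ## Products -/

/-- the torus `∏ X_i × B` -/
abbrev VV {k : ℕ} {d : Fin k → ℕ} (X : ∀ i, KT (d i)) (B : Type) : Type := (∀ i, (X i).W) × B

def LV {k : ℕ} {d : Fin k → ℕ} (X : ∀ i, KT (d i)) {B : Type} [NormedAddCommGroup B]
    (LB : AddSubgroup B) : AddSubgroup (VV X B) :=
  (AddSubgroup.pi Set.univ (fun i => (X i).Lam)).prod LB

/-- inclusions of the factors -/
def iX {k : ℕ} {d : Fin k → ℕ} (X : ∀ i, KT (d i)) (B : Type) [NormedAddCommGroup B]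
    [NormedSpace ℂ B] (i : Fin k) : (X i).W →ₗ[ℂ] VV X B :=
  (LinearMap.inl ℂ _ B) ∘ₗ (LinearMap.single ℂ (fun i => (X i).W) i)

def iB {k : ℕ} {d : Fin k → ℕ} (X : ∀ i, KT (d i)) (B : Type) [NormedAddCommGroup B]
    [NormedSpace ℂ B] : B →ₗ[ℂ] VV X B := LinearMap.inr ℂ _ B

/-- the monomial: all blocks `r ∈ S_i` of the `X_i`, and `mB` in `B` -/
def MV {k : ℕ} {d : Fin k → ℕ} (X : ∀ i, KT (d i)) (B : Type) [NormedAddCommGroup B]
    [NormedSpace ℂ B] (S : ∀ i, Finset (Un (d i))) (mB : Multiset (WC B)) :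
    Multiset (WC (VV X B)) :=
  ∑ i, (∑ r ∈ S i, (X i).blk r).map (bc (re' (iX X B i))) + mB.map (bc (re' (iB X B)))

end

end Pool.Agent.SJ
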