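import Pool.Agent.helper47.SJ.DefsP

/-!
# Project sj, part P1: statements (linear algebra of classes, links, Galois part, assembly)

Every statement `KXX_stmt` is proved in `Pool/Agent/<seat>/SJ/KXX.lean` as `theorem KXX (h : KYY_stmt) ... : KXX_stmt`
(any other statement may be a hypothesis, except circularly; `P2a_stmt`, ..., `P3b_stmt` too).  Never do
induction on `Alg` (constructors may be added).  Auxiliary lemmas are prefixed `KXX_`.

Bridges (files `Pool/Agent/<seat>/SJ/KB1.lean` ...): KB1: `theorem KB1 (h : Pool.Agent.HC.SJ.ZD7_stmt) :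
P2a_stmt ∧ P2b_stmt`; KB2: `theorem KB2 (h : Pool.Agent.HC.SJ.ZH3_stmt) (h' : Pool.Agent.HC.SJ.ZA0_stmt) : P2c_stmt`;
KB3: `theorem KB3 (h : Pool.Agent.HC.SJ3.EX_stmt) (h' : Pool.Agent.HC.SJ3.QZ_stmt) : P3a_stmt ∧ P3b_stmt`
(`I = Idx d μ`, `R i = i.r`, `K i = i.k`).
-/

namespace Pool.Agent.SJ

open scoped ComplexConjugate TensorProduct
open Pool.Agent.HC Pool.Agent.HC.SJ

noncomputable section

/-! ## Group A: formalism -/

/-- KPS. Permuting the factors changes the product by a sign.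
Proof: `io u * io u = 0` (expand `u = ∑ c_i ⊗ w_i`, or: the bilinear map `(u, v) ↦ io u * io v + io v * io u` vanishes on
pure tensors), so `io u * io v = - io v * io u`; then induction on `List.Perm`. -/
def KPS_stmt : Prop :=
  ∀ (W : Type) [AddCommGroup W] [Module ℝ W] (l l' : List (WC W)), l.Perm l' →
    PL l' = PL l ∨ PL l' = -PL l

/-- KPD. `PL` of a family of vectors is an alternating function: for a basis `b` of `ℂ ⊗ W` indexed by `Fin N` and any
family `v`, `PL (ofFn v) = det_b(v) • PL (ofFn b)`.  (`AlternatingMap.eq_smul_basis_det`.) In particular for a list `l` of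
length `N = finrank ℝ W` spanning `ℂ ⊗ W` and a real basis `e` of `W` there is `c ≠ 0` with
`PL l = c • (1 ⊗ ∏ ι(e_i))`. -/
def KPD_stmt : Prop :=
  ∀ (W : Type) [AddCommGroup W] [Module ℝ W] [FiniteDimensional ℝ W] (l : List (WC W))
    (e : Module.Basis (Fin (Module.finrank ℝ W)) ℝ W), l.length = Module.finrank ℝ W →
    Submodule.span ℂ {v | v ∈ l} = ⊤ →
    ∃ c : ℂ, c ≠ 0 ∧ PL l = c • (1 ⊗ₜ[ℝ] (List.ofFn fun i => ExteriorAlgebra.ι ℝ (e i)).prod)

/-- KHP. Functoriality of `PL`, and pairing of `PL` with determinants.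
(5): `pairC (detForm z) (PL l) = det (ev z_i l_j)` for a list of length `k`: both sides are multilinear in `l`, so it is
enough to take `l_j = 1 ⊗ w_j`, where `PL l = 1 ⊗ ιMulti w`. (6): other lengths give zero. -/
def KHP_stmt : Prop :=
  (∀ (W V : Type) [AddCommGroup W] [Module ℝ W] [AddCommGroup V] [Module ℝ V] (p : W →ₗ[ℝ] V)
    (l : List (WC W)), hm' p (PL l) = PL (l.map (bc p))) ∧
  (∀ (W V U : Type) [AddCommGroup W] [Module ℝ W] [AddCommGroup V] [Module ℝ V] [AddCommGroup U]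
    [Module ℝ U] (p : W →ₗ[ℝ] V) (q : V →ₗ[ℝ] U) (v : WC W), bc q (bc p v) = bc (q ∘ₗ p) v) ∧
  (∀ (W : Type) [AddCommGroup W] [Module ℝ W] (k : ℕ) (η : W [⋀^Fin k]→ₗ[ℝ] ℂ) (x : ExteriorAlgebra ℝ W),
    pairC η (1 ⊗ₜ[ℝ] x) = pair η x) ∧
  (∀ (W V : Type) [AddCommGroup W] [Module ℝ W] [AddCommGroup V] [Module ℝ V] (p : W →ₗ[ℝ] V) (k : ℕ)
    (η : V [⋀^Fin k]→ₗ[ℝ] ℂ) (h : HH W), pairC η (hm' p h) = pairC (η.compLinearMap p) h) ∧
  (∀ (W : Type) [AddCommGroup W] [Module ℝ W] (k : ℕ) (z : Fin k → (W →ₗ[ℝ] ℂ)) (v : Fin k → WC W),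
    pairC (detForm z) (PL (List.ofFn v)) = (Matrix.of fun i j => ev (z i) (v j)).det) ∧
  (∀ (W : Type) [AddCommGroup W] [Module ℝ W] (k : ℕ) (η : W [⋀^Fin k]→ₗ[ℝ] ℂ) (l : List (WC W)),
    l.length ≠ k → pairC η (PL l) = 0)

/-- KND. Nondegeneracy: a class with vanishing coordinates is zero.
Proof: `W` has a real basis `e_1..e_N`, the `w_i` are a `ℂ`-basis of `ℂ ⊗ W`, so every product of vectors `1 ⊗ e_j` is a
combination of the products `PL (ofFn (w ∘ s))`, `s : Fin k → I`, and (`KPS`, and zero if `s` is not injective) these are, up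
to sign, determined by the finite set `range s`; so `h = ∑_S c_S PL(S)` and the coordinates of `h` are `± c_S` (`KHP`). -/
def KND_stmt : Prop :=
  ∀ (W : Type) [AddCommGroup W] [Module ℝ W] [FiniteDimensional ℝ W] (I : Type) [Fintype I]
    [DecidableEq I] (z : I → (W →ₗ[ℝ] ℂ)) (w : I → WC W),
    (∀ i j, ev (z i) (w j) = if i = j then 1 else 0) → Submodule.span ℂ (Set.range w) = ⊤ →
    ∀ h : HH W, (∀ (k : ℕ) (s : Fin k → I), Function.Injective s →
      pairC (detForm fun j => z (s j)) h = 0) → h = 0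

/-- KL0. Every linear functional on the forms of degree `k` is given by a unique class of degree `k`.
(`exteriorPower.alternatingMapLinearEquiv` and reflexivity of the finite dimensional space `⋀^k W`.) -/
def KL0_stmt : Prop :=
  ∀ (W : Type) [AddCommGroup W] [Module ℝ W] [FiniteDimensional ℝ W] (k : ℕ)
    (L : (W [⋀^Fin k]→ₗ[ℝ] ℝ) → ℝ), (∀ η η', L (η + η') = L η + L η') →
    (∀ (c : ℝ) η, L (c • η) = c * L η) →
    ∃ x ∈ (⋀[ℝ]^k W : Submodule ℝ (ExteriorAlgebra ℝ W)), IsClass L x ∧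
      ∀ x' : ExteriorAlgebra ℝ W, IsClass L x' → x' = x

/-- KRE. A class is in the complex span of algebraic classes iff its real and imaginary parts are
algebraic. -/
def KRE_stmt : Prop :=
  ∀ (W : Type) [NormedAddCommGroup W] [NormedSpace ℂ W] [FiniteDimensional ℂ W]
    (Lam : AddSubgroup W), IsLattice Lam →
    (∀ h : HH W, h ∈ AlgC W Lam ↔
      Alg W Lam (prt Complex.reLm h) ∧ Alg W Lam (prt Complex.imLm h)) ∧
    (∀ x : ExteriorAlgebra ℝ W, (1 : ℂ) ⊗ₜ[ℝ] x ∈ AlgC W Lam ↔ Alg W Lam x) ∧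
    (∀ h : HH W, h = 1 ⊗ₜ[ℝ] (prt Complex.reLm h) + Complex.I • (1 ⊗ₜ[ℝ] (prt Complex.imLm h)))

/-- KPR. Products: for classes and for monomials. (Span induction in both variables, rule `prod`; `KHP`, `KPS`.) -/
def KPR_stmt : Prop :=
  ∀ (W W' V : Type) [NormedAddCommGroup W] [NormedSpace ℂ W] [NormedAddCommGroup W']
    [NormedSpace ℂ W'] [NormedAddCommGroup V] [NormedSpace ℂ V] [FiniteDimensional ℂ V]
    (Lam : AddSubgroup W) (Lam' : AddSubgroup W') (LamV : AddSubgroup V)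
    (p : W →ₗ[ℂ] V) (q : W' →ₗ[ℂ] V),
    IsLattice LamV → (∀ w ∈ Lam, p w ∈ LamV) → (∀ w ∈ Lam', q w ∈ LamV) →
    (∀ h ∈ AlgC W Lam, ∀ h' ∈ AlgC W' Lam', hm' (re' p) h * hm' (re' q) h' ∈ AlgC V LamV) ∧
    (∀ (m : Multiset (WC W)) (m' : Multiset (WC W')), AlgM W Lam m → AlgM W' Lam' m' →
      AlgM V LamV (m.map (bc (re' p)) + m'.map (bc (re' q))))

/-- KPU. Push forward, unit, and: one order of the factors is enough. -/
def KPU_stmt : Prop :=
  (∀ (W V : Type) [NormedAddCommGroup W] [NormedSpace ℂ W] [NormedAddCommGroup V] [NormedSpace ℂ V]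
    [FiniteDimensional ℂ V] (Lam : AddSubgroup W) (LamV : AddSubgroup V) (p : W →ₗ[ℂ] V),
    IsLattice LamV → (∀ w ∈ Lam, p w ∈ LamV) →
    (∀ h ∈ AlgC W Lam, hm' (re' p) h ∈ AlgC V LamV) ∧
    (∀ m : Multiset (WC W), AlgM W Lam m → AlgM V LamV (m.map (bc (re' p))))) ∧
  (∀ (W : Type) [NormedAddCommGroup W] [NormedSpace ℂ W] [FiniteDimensional ℂ W]
    (Lam : AddSubgroup W), IsLattice Lam → AlgM W Lam 0) ∧
  (∀ (W : Type) [NormedAddCommGroup W] [NormedSpace ℂ W] (Lam : AddSubgroup W) (l : List (WC W)),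
    PL l ∈ AlgC W Lam → AlgM W Lam (l : Multiset (WC W)))

/-- KSL. Slices: if `m` times the top class of `P` is algebraic on `W × P`, then `m` is algebraic on `W`.
(`KPD` for the top class, `KRE` to apply the rule `slice` to real and imaginary parts, `KHP`.) -/
def KSL_stmt : Prop :=
  ∀ (W P V : Type) [NormedAddCommGroup W] [NormedSpace ℂ W] [FiniteDimensional ℂ W]
    [NormedAddCommGroup P] [NormedSpace ℂ P] [FiniteDimensional ℂ P] [NormedAddCommGroup V]
    [NormedSpace ℂ V] [FiniteDimensional ℂ V] (Lam : AddSubgroup W) (LamP : AddSubgroup P)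
    (LamV : AddSubgroup V) (p : W →ₗ[ℂ] V) (q : P →ₗ[ℂ] V),
    IsLattice Lam → IsLattice LamP → IsLattice LamV →
    Function.Bijective (fun u : W × P => p u.1 + q u.2) →
    (∀ v, v ∈ LamV ↔ ∃ w ∈ Lam, ∃ u ∈ LamP, v = p w + q u) →
    ∀ (m : Multiset (WC W)) (t : Multiset (WC P)), Multiset.card t = Module.finrank ℝ P →
    Submodule.span ℂ {v | v ∈ t} = ⊤ →
    AlgM V LamV (m.map (bc (re' p)) + t.map (bc (re' q))) → AlgM W Lam m

/-- KPI. Lattices in products. -/
def KPI_stmt : Prop :=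
  (∀ (W V : Type) [NormedAddCommGroup W] [NormedSpace ℂ W] [FiniteDimensional ℂ W]
    [NormedAddCommGroup V] [NormedSpace ℂ V] [FiniteDimensional ℂ V] (Lam : AddSubgroup W)
    (LamV : AddSubgroup V), IsLattice Lam → IsLattice LamV → IsLattice (Lam.prod LamV)) ∧
  (∀ (k : ℕ) (W : Fin k → Type) [∀ i, NormedAddCommGroup (W i)] [∀ i, NormedSpace ℂ (W i)]
    [∀ i, FiniteDimensional ℂ (W i)] (Lam : ∀ i, AddSubgroup (W i)), (∀ i, IsLattice (Lam i)) →
    IsLattice (AddSubgroup.pi Set.univ Lam))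

/-- KIS. Isolation of an eigencomponent of dimension one: endomorphisms `T α`, `α ∈ ℤ^M`, of the torus acting on the
functionals `z i` by linear forms `∑ α_j l_ij`; `S ⊂ I` such that no other subset has the same character; an algebraic
class with non zero coordinate at `S`. Then the monomial `S` is algebraic.
Proof: choose `α` with `χ_{S'}(α) ≠ χ_S(α)` for all `S' ≠ S` (a product of finitely many non zero polynomials on `ℤ^M`
has a non zero value). Let `f` be the polynomial vanishing at all `χ_{S'}(α)`, `S' ≠ S`, with `f(χ_S(α)) = 1` and put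
`y = f(hm' (T α)) (1 ⊗ x) ∈ AlgC` (`KPU`). By `KHP`, the coordinate of `y` at an injective `s` is
`f(∏ eigenvalues) *` the coordinate of `x`, so it vanishes unless `range s = S`; by `KND`,
`y = c • PL(S)`, `c ≠ 0` (permutations: `KPS`). -/
def KIS_stmt : Prop :=
  ∀ (W : Type) [NormedAddCommGroup W] [NormedSpace ℂ W] [FiniteDimensional ℂ W]
    (Lam : AddSubgroup W), IsLattice Lam →
  ∀ (I : Type) [Fintype I] [DecidableEq I] (z : I → (W →ₗ[ℝ] ℂ)) (w : I → WC W),
    (∀ i j, ev (z i) (w j) = if i = j then 1 else 0) → Submodule.span ℂ (Set.range w) = ⊤ →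
  ∀ (M : Type) [Fintype M] (T : (M → ℤ) → (W →ₗ[ℂ] W)) (l : I → M → ℂ),
    (∀ α, ∀ v ∈ Lam, T α v ∈ Lam) →
    (∀ α i v, z i (T α v) = (∑ j, (α j : ℂ) * l i j) * z i v) →
  ∀ (S : Finset I), (∀ S' : Finset I,
    (∀ α : M → ℤ, ∏ i ∈ S', (∑ j, (α j : ℂ) * l i j) = ∏ i ∈ S, (∑ j, (α j : ℂ) * l i j)) → S' = S) →
  ∀ (k : ℕ) (s : Fin k → I), Function.Injective s → Finset.univ.image s = S →
  ∀ x : ExteriorAlgebra ℝ W, Alg W Lam x → pair (detForm fun j => z (s j)) x ≠ 0 →
    AlgM W Lam (S.val.map w)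

/-! ## Group B: links -/

/-- KLS. Symmetry: push by the exchange of the factors, which maps `V_r(X) V_{-r}(Y)` to the monomial of `Link Y X` at
`-r` (`ng (ng r) = r` needs `0 < r`, true for `3 ≤ d`). -/
def KLS_stmt : Prop :=
  ∀ (d n : ℕ), 3 ≤ d → ∀ X Y : KT d, X.OK n → Y.OK n → Link X Y → Link Y X

/-- KLA. `det V_r(X) det V_{-r}(X)` is algebraic: image of the class of `Link X X` under the addition `X × X → X`. -/
def KLA_stmt : Prop :=
  ∀ (d n : ℕ), 3 ≤ d → ∀ X : KT d, X.OK n → Link X X → ∀ r, AlgM X.W X.Lam (X.blk r + X.blk (ng r))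

/-- KLC. Cancellation: `Q` a set of characters stable under `r ↦ -r`. If `m` times `∏_{r ∈ Q} det V_r(Y)` is algebraic
on `R × Y` then `m` is algebraic on `R`. Proof: multiply by the classes of `KLA` for the pairs `{r, -r}` not in `Q` (they are
disjoint pairs, `r ≠ -r` for `3 ≤ d`): the result is `m` times the product of all blocks, the top class; `KSL`. -/
def KLC_stmt : Prop :=
  ∀ (d n : ℕ), 3 ≤ d → ∀ Y : KT d, Y.OK n → Link Y Y →
  ∀ (R : Type) [NormedAddCommGroup R] [NormedSpace ℂ R] [FiniteDimensional ℂ R]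
    (LamR : AddSubgroup R), IsLattice LamR →
  ∀ (m : Multiset (WC R)) (Q : Finset (Un d)), (∀ r ∈ Q, ng r ∈ Q) →
    AlgM (R × Y.W) (LamR.prod Y.Lam) (m.map (inL R Y.W) + (∑ r ∈ Q, Y.blk r).map (inR R Y.W)) →
    AlgM R LamR m

/-- KLT. Transitivity: on `X × Z × Y` multiply the classes of `Link X Y` and of `Link Y Z` at `r` (the two
`Y`-components `V_{-r}(Y)`, `V_r(Y)` are added), cancel `V_r(Y) V_{-r}(Y)` by `KLC`. -/
def KLT_stmt : Prop :=
  ∀ (d n : ℕ), 3 ≤ d → ∀ X Y Z : KT d, X.OK n → Y.OK n → Z.OK n → Link Y Y → Link X Y → Link Y Z →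
    Link X Z

/-- KSW. Exchange of factors: the monomials of the `Y_i` can be replaced by the monomials of the `X_i`.
Proof: let `S0_i ⊂ S_i` be the `r ∈ S_i` with `-r ∉ S_i`. In `V2 = (∏ X_i × B) × ∏ Y_i` multiply: the given class (pushed by
`∏ Y_i × B → V2`), the classes of `Link (X_i) (Y_i)` at `r ∈ S0_i`, the classes `KLA` of `X_i` for the pairs `{r, -r} ⊂ S_i`, the
classes `KLA` of `Y_i` for the pairs outside `S_i`. The product is the monomial of the `X_i` times the product of all blocks of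
all `Y_i`, the top class of `∏ Y_i`. Slice (`KSL`, `KPI`). All identities are between multisets (sums over finite sets). -/
def KSW_stmt : Prop :=
  ∀ (k : ℕ) (d n : Fin k → ℕ), (∀ i, 3 ≤ d i) → ∀ X Y : ∀ i, KT (d i),
    (∀ i, (X i).OK (n i)) → (∀ i, (Y i).OK (n i)) → (∀ i, Link (X i) (X i)) →
    (∀ i, Link (Y i) (Y i)) → (∀ i, Link (X i) (Y i)) →
  ∀ (B : Type) [NormedAddCommGroup B] [NormedSpace ℂ B] [FiniteDimensional ℂ B]
    (LB : AddSubgroup B), IsLattice LB →
  ∀ (S : ∀ i, Finset (Un (d i))) (mB : Multiset (WC B)),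
    AlgM (VV Y B) (LV Y LB) (MV Y B S mB) → AlgM (VV X B) (LV X LB) (MV X B S mB)

/-! ## Group C: Jacobians -/

/-- KJO. The data `JT` of the new part of a Jacobian has the required properties. For `card`: block `r` of
`Idx ⊕ Idx` is `{k : (k+1) d < ∑ (r μ_j mod d)} ⊔ {k : (k+1) d < ∑ ((d-r) μ_j mod d)}`, and
`∑ (r μ_j mod d) + ∑ ((d-r) μ_j mod d) = (n+1) d`, neither a multiple of `d`. -/
def KJO_stmt : Prop :=
  ∀ (d n : ℕ) (μ : Fin (n + 1) → ℕ) (a : Fin (n + 1) → ℂ) (Lam : AddSubgroup (Idx d μ → ℂ)),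
    IsCov d μ a → IsJac d μ a Lam → (JT d μ Lam).OK n

/-- the coordinate functionals of `A_a × A_b` -/
def zz (d : ℕ) {n : ℕ} (μ : Fin (n + 1) → ℕ) :
    (Idx d μ ⊕ Idx d μ) ⊕ (Idx d μ ⊕ Idx d μ) → ((Idx d μ → ℂ) × (Idx d μ → ℂ) →ₗ[ℝ] ℂ) :=
  Sum.elim
    (Sum.elim (fun s => zh (LinearMap.proj s ∘ₗ LinearMap.fst ℂ _ _))
      (fun s => za (LinearMap.proj s ∘ₗ LinearMap.fst ℂ _ _)))
    (Sum.elim (fun s => zh (LinearMap.proj s ∘ₗ LinearMap.snd ℂ _ _))
      (fun s => za (LinearMap.proj s ∘ₗ LinearMap.snd ℂ _ _)))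

/-- the coordinate is in the block (first factor, character `r`) or (second factor, character `-r`) -/
def inS (d : ℕ) {n : ℕ} (μ : Fin (n + 1) → ℕ) (r : Un d) :
    (Idx d μ ⊕ Idx d μ) ⊕ (Idx d μ ⊕ Idx d μ) → Prop :=
  Sum.elim
    (Sum.elim (fun s => s.r = r.1) (fun s => s.r = (ng r).1))
    (Sum.elim (fun s => s.r = (ng r).1) (fun s => s.r = r.1))

/-- the coordinate of the class of `Z_{a,b}` of weight `(r^n; (-r)^n)` is not zero -/
def NZ (d : ℕ) {n : ℕ} (μ : Fin (n + 1) → ℕ) (a b : Fin (n + 1) → ℂ) (κ : ℂ) (r : Un d) : Prop :=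
  ∃ e : Fin (2 * n) → (Idx d μ ⊕ Idx d μ) ⊕ (Idx d μ ⊕ Idx d μ), Function.Injective e ∧
    (∀ j, inS d μ r (e j)) ∧ clZ d μ a b κ (detForm fun j => zz d μ (e j)) ≠ 0

/-- P2a: integrability (output of part P2) -/
def P2a_stmt : Prop :=
  ∀ (d n : ℕ) (μ : Fin (n + 1) → ℕ) (a b : Fin (n + 1) → ℂ) (κ : ℂ), IsCov d μ a → IsCov d μ b →
    κ ≠ 0 → ∀ η : ((Idx d μ → ℂ) × (Idx d μ → ℂ)) [⋀^Fin (2 * n)]→ₗ[ℝ] ℝ,
    MeasureTheory.Integrable (fun c : Fin n → ℂ => ∑ᶠ z ∈ {z : ZPt n | IsZ d μ a b κ c z},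
      η (fun j => Df d μ a b z (rb n j)))

/-- P2b: finiteness of the fibres (output of part P2) -/
def P2b_stmt : Prop :=
  ∀ (d n : ℕ) (μ : Fin (n + 1) → ℕ) (a b : Fin (n + 1) → ℂ) (κ : ℂ), IsCov d μ a → IsCov d μ b →
    ∀ c : Fin n → ℂ, {z : ZPt n | IsZ d μ a b κ c z}.Finite

/-- P2c: non vanishing for `b` near `a` (output of part P2) -/
def P2c_stmt : Prop :=
  ∀ (d n : ℕ) (μ : Fin (n + 1) → ℕ) (a : Fin (n + 1) → ℂ), IsCov d μ a →
    ∃ ε > 0, ∀ b : Fin (n + 1) → ℂ, IsCov d μ b → ‖b - a‖ < ε →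
      ∃ κ : ℂ, κ ^ d = ∏ j, (lam b j / lam a j) ^ μ j ∧ ∀ r : Un d, NZ d μ a b κ r

/-- P3a: existence of the period lattice (output of part P3) -/
def P3a_stmt : Prop :=
  ∀ (d n : ℕ) (μ : Fin (n + 1) → ℕ) (a : Fin (n + 1) → ℂ), IsCov d μ a →
    ∃ Lam : AddSubgroup (Idx d μ → ℂ), IsJac d μ a Lam

/-- P3b: the curve `y^d = x^(n+1) - 1` has CM (output of part P3) -/
def P3b_stmt : Prop :=
  ∀ (d n : ℕ), IsCov d (fun _ : Fin (n + 1) => 1)
      (fun j : Fin (n + 1) => zt (n + 1) ^ (j : ℕ)) →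
    ∃ Lam : AddSubgroup (Idx d (fun _ : Fin (n + 1) => 1) → ℂ), IsJac d (fun _ : Fin (n + 1) => 1)
      (fun j : Fin (n + 1) => zt (n + 1) ^ (j : ℕ)) Lam ∧
      Nonempty (CMData (Idx d (fun _ : Fin (n + 1) => 1) → ℂ) Lam)

/-- KLK. From the cycle `Z_{a,b}` to the link `A_a ~ A_b`. Proof: `KL0` with the additivity given by integrability
(`P2a`, `P2b`, `integral_add`, `integral_const_mul`) gives the class `x` of `Z_{a,b}`, algebraic by the rule `corr`; its
coordinate is `pair (detForm ..) x = clZ .. (detForm ..)` (real and imaginary parts of the complex form). `KIS` with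
`W = A_a × A_b`, `M = Fin d ⊕ Fin d`, `T α = (∑ α_i zact^i, ∑ α'_i zact^i)`: a subset `S'` with the character
`σ_r(t)^n σ_{-r}(t')^n` has the same number of elements in each block (the linear forms `σ_ρ(t) = ∑ α_i ζ^(ρ i)`, and
`σ_ρ(t')`, are linearly independent, Vandermonde; so compare the values along complex curves where all but one of
them are `1`; integers are Zariski dense), so it is the union of the two full blocks. -/
def KLK_stmt : Prop :=
  ∀ (d n : ℕ) (μ : Fin (n + 1) → ℕ) (a b : Fin (n + 1) → ℂ) (κ : ℂ)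
    (Lama Lamb : AddSubgroup (Idx d μ → ℂ)), IsCov d μ a → IsCov d μ b →
    κ ^ d = ∏ j, (lam b j / lam a j) ^ μ j → IsJac d μ a Lama → IsJac d μ b Lamb →
    (∀ r : Un d, NZ d μ a b κ r) → Link (JT d μ Lama) (JT d μ Lamb)

/-- KOC. Open and closed: an equivalence relation on the injective families `Fin (n+1) → ℂ` which holds for all
sufficiently near families holds for all. Proof: move one coordinate at a time in the complement of a finite set
(connected); intermediate families through a family `c` with coordinates different from all `a_j`, `b_j`. On a connected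
set the classes are open, so there is one class (`IsPreconnected`). -/
def KOC_stmt : Prop :=
  ∀ (n : ℕ) (R : (Fin (n + 1) → ℂ) → (Fin (n + 1) → ℂ) → Prop),
    (∀ a b, Function.Injective a → Function.Injective b → R a b → R b a) →
    (∀ a b c, Function.Injective a → Function.Injective b → Function.Injective c → R a b → R b c →
      R a c) →
    (∀ a, Function.Injective a → ∃ ε > 0, ∀ b, Function.Injective b → ‖b - a‖ < ε → R a b) →
    ∀ a b, Function.Injective a → Function.Injective b → R a b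

/-- KP4. All `A_a` with the same `d`, `μ` are linked (`KLK`, `P2c`, `P3a`, `KLS`, `KLT`, `KOC`; the relation is: linked for all
lattices). -/
def KP4_stmt : Prop :=
  ∀ (d n : ℕ) (μ : Fin (n + 1) → ℕ) (a b : Fin (n + 1) → ℂ)
    (Lama Lamb : AddSubgroup (Idx d μ → ℂ)), IsCov d μ a → IsCov d μ b → IsJac d μ a Lama →
    IsJac d μ b Lamb → Link (JT d μ Lama) (JT d μ Lamb)

/-- PA C: every `A_a` with branching data satisfying `C` has a CM partner. -/
def PA_stmt (C : (d : ℕ) → (n : ℕ) → (Fin (n + 1) → ℕ) → Prop) : Prop :=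
  ∀ (d n : ℕ) (μ : Fin (n + 1) → ℕ) (a : Fin (n + 1) → ℂ) (Lam : AddSubgroup (Idx d μ → ℂ)),
    C d n μ → IsCov d μ a → IsJac d μ a Lam →
    ∃ Y : KT d, Y.OK n ∧ Nonempty (CMData Y.W Y.Lam) ∧ Link Y Y ∧ Link (JT d μ Lam) (JT d μ Lam) ∧
      Link (JT d μ Lam) Y ∧ ∀ r, Y.hn r = (JT d μ Lam).hn r

/-- KPB. First stage: `μ = 1` (from `KP4`, `P3b`, `KJO`). -/
def KPB_stmt : Prop := PA_stmt (fun _ _ μ => ∀ j, μ j = 1)

/-! ## Group D: Galois part -/

/-- KZD. Generic separation of characters. `K_j` number fields, `om` a `ℚ`-generating family of `∏ K_j`. For every `N` there is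
`α ∈ ℤ^M` such that the values `∏_β eig(α, β)^(e_β)`, `0 ≤ e_β ≤ N`, are distinct and all `eig(α, β) ≠ 0`.
Proof: the linear forms `α ↦ eig(α, β)` on `ℂ^M` are linearly independent (`linearIndependent_monoidHom` for the
characters `x ↦ φ(x_j)` of the monoid `∏ K_j`, and `om` generates), so polynomials in them are algebraically
independent functions and `ℤ^M` is Zariski dense. -/
def KZD_stmt : Prop :=
  ∀ (J : Type) [Fintype J] (K : J → Type) [∀ j, Field (K j)] [∀ j, NumberField (K j)] (M : Type)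
    [Fintype M] (om : M → ∀ j, K j), Submodule.span ℚ (Set.range om) = ⊤ → ∀ N : ℕ,
    ∃ α : M → ℤ, (∀ β, eig om α β ≠ 0) ∧ ∀ e e' : (Σ j, (K j →+* ℂ)) → ℕ,
      (∀ β, e β ≤ N) → (∀ β, e' β ≤ N) →
      ∏ᶠ β, eig om α β ^ e β = ∏ᶠ β, eig om α β ^ e' β → e = e'

/-- KEG. Existence of `E`. (The compositum in an algebraic closure, or the splitting field of the product of minimal
polynomials of primitive elements of the `K_j`.) -/
def KEG_stmt : Prop :=
  ∀ (J : Type) [Fintype J] (K : J → Type) [∀ j, Field (K j)] [∀ j, NumberField (K j)],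
    ∃ (E : Type) (_ : Field E) (_ : NumberField E) (ι : E →+* ℂ), Fac K E ι

/-- KRK. Rational kernels. The classes killed by `f(T)`, `f ∈ ℚ[X]`, are complex combinations of rational classes killed by
`f(T)`. (A `ℤ`-basis of `Lam` is an `ℝ`-basis of `W`; on the products of basis vectors `T` has a rational matrix; the kernel
of a rational matrix over `ℂ` is spanned by its rational elements.) -/
def KRK_stmt : Prop :=
  ∀ (W : Type) [NormedAddCommGroup W] [NormedSpace ℂ W] [FiniteDimensional ℂ W]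
    (Lam : AddSubgroup W), IsLattice Lam → ∀ (T : W →ₗ[ℂ] W), (∀ v ∈ Lam, T v ∈ Lam) →
  ∀ (f : Polynomial ℚ) (k : ℕ) (h : HH W),
    (∃ (N : ℕ) (c : Fin N → ℂ) (v : Fin N → Fin k → WC W), h = ∑ i, c i • PL (List.ofFn (v i))) →
    Polynomial.aeval (hm' (re' T)).toLinearMap (f.map (algebraMap ℚ ℂ)) h = 0 →
    h ∈ Submodule.span ℂ {y : HH W | ∃ x : ExteriorAlgebra ℝ W, y = 1 ⊗ₜ[ℝ] x ∧ IsRatCl Lam k x ∧
      Polynomial.aeval (ExteriorAlgebra.map (re' T)).toLinearMap (f.map (algebraMap ℚ ℝ)) x = 0}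

/-- KRM. Relative minimal polynomial of a rational class: if a complex polynomial `F` in `T` kills the rational class `x`,
some rational polynomial dividing `F` (over `ℂ`) kills `x`. (`x, Tx, ..., T^(D-1)x` linearly independent over `ℚ` remain so
over `ℂ`.) -/
def KRM_stmt : Prop :=
  ∀ (W : Type) [NormedAddCommGroup W] [NormedSpace ℂ W] [FiniteDimensional ℂ W]
    (Lam : AddSubgroup W), IsLattice Lam → ∀ (T : W →ₗ[ℂ] W), (∀ v ∈ Lam, T v ∈ Lam) →
  ∀ (k : ℕ) (x : ExteriorAlgebra ℝ W), IsRatCl Lam k x → ∀ F : Polynomial ℂ,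
    Polynomial.aeval (hm' (re' T)).toLinearMap F (1 ⊗ₜ[ℝ] x) = 0 →
    ∃ f : Polynomial ℚ, f.map (algebraMap ℚ ℂ) ∣ F ∧
      Polynomial.aeval (ExteriorAlgebra.map (re' T)).toLinearMap (f.map (algebraMap ℚ ℝ)) x = 0

/-- KHA. Hodge classes on CM tori are algebraic, by `HodgeCM_stmt` and the rule `ball` (`KL0` for the classes of the maps:
the integral over `M.D`, contained in a compact subset of the ball, of a continuous function converges). -/
def KHA_stmt : Prop :=
  ∀ (W : Type) [NormedAddCommGroup W] [NormedSpace ℂ W] [FiniteDimensional ℂ W]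
    (Lam : AddSubgroup W), IsLattice Lam → Nonempty (CMData W Lam) →
  ∀ (k : ℕ) (x : ExteriorAlgebra ℝ W), IsHodgeCl Lam k x → Alg W Lam x

/-- KTY. A class whose coordinates vanish except at families `s` with `k` complex linear and `k` conjugate linear
functionals is invariant under `rot`; conversely the non zero coordinates of a class invariant under `rot` are of this
kind (equal numbers). -/
def KTY_stmt : Prop :=
  ∀ (J : Type) [Fintype J] (K : J → Type) [∀ j, Field (K j)] [∀ j, NumberField (K j)] (W : Type)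
    [NormedAddCommGroup W] [NormedSpace ℂ W] [FiniteDimensional ℂ W] (Lam : AddSubgroup W)
    (X : GT J K W), X.OK Lam → ∀ x : ExteriorAlgebra ℝ W,
    (∀ t : ℝ, ExteriorAlgebra.map (rot (W := W) t) x = x) ↔
    ∀ (k : ℕ) (s : Fin k → X.I), Function.Injective s → pair (detForm fun j => X.z (s j)) x ≠ 0 →
      Nat.card {j // X.hol (s j)} = Nat.card {j // ¬ X.hol (s j)}

/-- KCO. On a CM torus, a monomial all of whose conjugates are of type `(p, p)` is algebraic.
Proof: `α` from `KZD` (`N` = the dimension), `T = T α`, `χ_S(α) = ∏_{bl i ∈ S} eig(α, bl i) = ι(c)`, `c ∈ E`; `f` = minimal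
polynomial of `χ_S(α)` over `ℚ`. `PL(mono S)` is killed by `f(T)` so by `KRK` it is a combination of rational classes `x`
killed by `f(T)`. A non zero coordinate `s` of `x` has `f(χ_s(α)) = 0` so `χ_s(α) = τ(c) = χ_{τ S}(α)` for some embedding
`τ` of `E`, so by `KZD` (and `GT.OK.card`, `pos`) `s` is a bijection on the set of all `i` with `bl i ∈ τ S`, hence balanced;
`KTY`: `x` is a Hodge class; `KHA`. -/
def KCO_stmt : Prop :=
  ∀ (J : Type) [Fintype J] (K : J → Type) [∀ j, Field (K j)] [∀ j, NumberField (K j)] (E : Type)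
    [Field E] [NumberField E] (ι : E →+* ℂ) (hF : Fac K E ι) (W : Type)
    [NormedAddCommGroup W] [NormedSpace ℂ W] [FiniteDimensional ℂ W] (Lam : AddSubgroup W)
    (X : GT J K W), X.OK Lam → Nonempty (CMData W Lam) →
  ∀ S : Finset (Σ j, (K j →+* ℂ)), X.BalAll hF S → AlgM W Lam (X.mono S)

/-- KDE. A Hodge class whose non zero coordinates are unions of full blocks is a combination of monomials all of
whose conjugates are of type `(p, p)`; so if these are algebraic it is algebraic.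
Proof: `x` is rational; expand `1 ⊗ x = ∑_S c_S PL(mono S)`. Let `c_S ≠ 0`, `τ : E → ℂ`. Let `F = ∏ (X - χ_{S'}(α))` over the `S'`
with `c_{S'} ≠ 0` (`α` from `KZD`): it kills `x`, so (`KRM`) a rational `f ∣ F` kills `x`; `f(χ_S(α)) = 0`, so
`f(χ_{τ S}(α)) = 0`, so `χ_{τ S}(α) = χ_{S'}(α)` for some `S'` with `c_{S'} ≠ 0`, and `S' = τ S` by `KZD`. By `KTY` it is
balanced. -/
def KDE_stmt : Prop :=
  ∀ (J : Type) [Fintype J] (K : J → Type) [∀ j, Field (K j)] [∀ j, NumberField (K j)] (E : Type)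
    [Field E] [NumberField E] (ι : E →+* ℂ) (hF : Fac K E ι) (W : Type)
    [NormedAddCommGroup W] [NormedSpace ℂ W] [FiniteDimensional ℂ W] (Lam : AddSubgroup W)
    (X : GT J K W), X.OK Lam → ∀ (k : ℕ) (x : ExteriorAlgebra ℝ W), IsHodgeCl Lam k x →
    (∀ (l : ℕ) (s : Fin l → X.I), Function.Injective s →
      (∃ i i', X.bl i = X.bl i' ∧ (i ∈ Set.range s) ∧ (i' ∉ Set.range s)) →
      pair (detForm fun j => X.z (s j)) x = 0) →
    (∀ S : Finset (Σ j, (K j →+* ℂ)), X.BalAll hF S → AlgM W Lam (X.mono S)) → Alg W Lam x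

/-! ## Group E: assembly -/

/-- KMK. The data `GT` of the products `∏ X_i × B` and `∏ Y_i × B`, `B` a CM torus, over the same fields: `J = Fin k ⊕ Fin C.r`,
`K (inl i) = ℚ(ζ_{d_i})`, `K (inr j) = C.K j`; blocks: `(i, r)`, the embedding with `ζ ↦ zt^r`, and the embeddings of `C.K j`.
`M = (Σ i, Fin (d i)) ⊕ (Σ j, Fin [K_j : ℚ])`, `om (i, a) = ζ^a` at `i`, `om (j, b) = N ω_b` at `j`, `ω` a basis of `K_j`, `N > 0`
such that multiplication by `N ω_b` maps `LB` to itself. -/
def KMK_stmt : Prop :=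
  ∀ (k : ℕ) (d n : Fin k → ℕ), (∀ i, 3 ≤ d i) → (∀ i, 0 < n i) → ∀ X Y : ∀ i, KT (d i),
    (∀ i, (X i).OK (n i)) → (∀ i, (Y i).OK (n i)) → (∀ i r, (Y i).hn r = (X i).hn r) →
  ∀ (B : Type) [NormedAddCommGroup B] [NormedSpace ℂ B] [FiniteDimensional ℂ B]
    (LB : AddSubgroup B), IsLattice LB → CMData B LB →
  ∃ (J : Type) (_ : Fintype J) (K : J → Type) (_ : ∀ j, Field (K j)) (_ : ∀ j, NumberField (K j))
    (G : GT J K (VV X B)) (G' : GT J K (VV Y B)), G.OK (LV X LB) ∧ G'.OK (LV Y LB) ∧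
    (∀ S : Finset (Σ j, (K j →+* ℂ)), ∃ (S' : ∀ i, Finset (Un (d i))) (mB : Multiset (WC B)),
      G.mono S = MV X B S' mB ∧ G'.mono S = MV Y B S' mB) ∧
    (∀ S : Finset (Σ j, (K j →+* ℂ)), G.Bal S ↔ G'.Bal S) ∧
    (∀ i i' : G.I, i ≠ i' → G.bl i = G.bl i' → ∃ (i0 : Fin k) (r : Un (d i0)) (u u' : (X i0).I),
      (X i0).bl u = r ∧ (X i0).bl u' = r ∧ u ≠ u' ∧
      G.z i = (X i0).z u ∘ₗ (LinearMap.proj (R := ℝ) (φ := fun i => (X i).W) i0 ∘ₗ
        LinearMap.fst ℝ (∀ i, (X i).W) B) ∧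
      G.z i' = (X i0).z u' ∘ₗ (LinearMap.proj (R := ℝ) (φ := fun i => (X i).W) i0 ∘ₗ
        LinearMap.fst ℝ (∀ i, (X i).W) B)) ∧
    (∀ i : G.I, (∃ (i0 : Fin k) (u : (X i0).I), G.z i = (X i0).z u ∘ₗ
        (LinearMap.proj (R := ℝ) (φ := fun i => (X i).W) i0 ∘ₗ LinearMap.fst ℝ (∀ i, (X i).W) B)) ∨
      (∀ w : ∀ i, (X i).W, G.z i (w, 0) = 0))

/-- KCP. A product of CM tori is a CM torus. -/
def KCP_stmt : Prop :=
  ∀ (k : ℕ) (d : Fin k → ℕ) (Y : ∀ i, KT (d i)), (∀ i, Nonempty (CMData (Y i).W (Y i).Lam)) →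
    (∀ i, IsLattice (Y i).Lam) →
  ∀ (B : Type) [NormedAddCommGroup B] [NormedSpace ℂ B] [FiniteDimensional ℂ B]
    (LB : AddSubgroup B), IsLattice LB → Nonempty (CMData B LB) →
    Nonempty (CMData (VV Y B) (LV Y LB))

/-- KSI. Invariance under the groups `KSL` implies that the coordinates vanish at the families which contain one but not
the other of two functionals `u`, `u'` of the same block `r` of `A_i`: use the element `g` of `KSL` multiplying the
coordinate `z_u` by `t` and `z_u'` by `t⁻¹`, `t > 0` real, and the conjugate coordinates too (for a coordinate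
`(r, k) ∈ Idx`, `g` multiplies `v (r, k)` by `t`, this is the functional `inl (r, k)` of block `r` and the functional
`inr (r, k)` of block `-r`; if `u`, `u'` are `inl (r, k)`, `inr (-r, k')` use `v (r, k) ↦ t v (r, k)`,
`v (-r, k') ↦ t⁻¹ v (-r, k')`). The coordinate at `s` is then multiplied by a power `t^e`; choose the complex number
`t` (not only real) so that `t^e conj(t)^e' ≠ 1` to separate the functionals from their conjugates. -/
def KSI_stmt : Prop :=
  ∀ (W : Type) [NormedAddCommGroup W] [NormedSpace ℂ W] [FiniteDimensional ℂ W]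
    (Lam : AddSubgroup W), IsLattice Lam → ∀ (D : SJData W Lam) (x : ExteriorAlgebra ℝ W), D.Inv x →
  ∀ (i0 : Fin D.k) (r : Un (D.d i0)) (u u' : (JT (D.d i0) (D.μ i0) (D.L i0)).I),
    (JT (D.d i0) (D.μ i0) (D.L i0)).bl u = r → (JT (D.d i0) (D.μ i0) (D.L i0)).bl u' = r → u ≠ u' →
  ∀ (l : ℕ) (z : Fin l → (W →ₗ[ℝ] ℂ)) (j0 : Fin l),
    -- every `z j` is a coordinate functional on one of the factors, zero on the others
    (∀ j, (∃ (i : Fin D.k) (v : (JT (D.d i) (D.μ i) (D.L i)).I),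
        (∀ w, z j (D.p i w) = (JT (D.d i) (D.μ i) (D.L i)).z v w) ∧
        (∀ i', i' ≠ i → ∀ w, z j (D.p i' w) = 0) ∧ (∀ w, z j (D.q w) = 0)) ∨
      (∀ i w, z j (D.p i w) = 0)) →
    -- `z j0` is the functional `u`, and no `z j` is the functional `u'`
    (∀ w, z j0 (D.p i0 w) = (JT (D.d i0) (D.μ i0) (D.L i0)).z u w) →
    (∀ j, j ≠ j0 → ¬ ∀ w, z j (D.p i0 w) = (JT (D.d i0) (D.μ i0) (D.L i0)).z u w) →
    (∀ j, ¬ ∀ w, z j (D.p i0 w) = (JT (D.d i0) (D.μ i0) (D.L i0)).z u' w) →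
    pair (detForm z) x = 0

/-- KF1. Theorem 1 from the partners: transport `x` to `V = ∏ A_i × B` by the isomorphism `(p, q)` (rational classes
correspond since the image of the product lattice has finite index in `Lam`), apply `KDE` with `KMK` and `KSI`; the
monomials are algebraic by `KSW` from `KCO` for `∏ Y_i × B` (`KCP`). -/
def KF1_stmt : Prop :=
  ∀ C : (d : ℕ) → (n : ℕ) → (Fin (n + 1) → ℕ) → Prop, PA_stmt C → Det_stmt C

/-- KWR. Real Weil classes are real combinations of rational Weil classes. `F = ℚ[X]/mu`; by `KZD` for the field `F`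
(`om = 1, X, ..., X^(D-1)`) there is `g ∈ ℤ[X]` such that the products `∏ g(c_i)^(e_i)`, `c_i` the roots of `mu`, `e_i ≤ 2m`, are
distinct; some multiple `T = N g(A)` preserves the lattice (`Lam' =` the image of the product lattice is stable
under `A` and of finite index). With `G = charpoly of multiplication by (N g)^(2m)` on `F` (rational, roots `(N g(c_i))^(2m)`)
the Weil classes are the classes of degree `2m` killed by `G(T)` (`KND` with a basis of eigenfunctionals of `A`, which exists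
because `mu` is separable); `KRK`. -/
def KWR_stmt : Prop :=
  ∀ (W : Type) [NormedAddCommGroup W] [NormedSpace ℂ W] [FiniteDimensional ℂ W]
    (Lam : AddSubgroup W), IsLattice Lam →
  ∀ (A : W →ₗ[ℂ] W) (mu : Polynomial ℚ) (m : ℕ),
  (∃ N : ℕ, 0 < N ∧ ∀ w ∈ Lam, (N : ℂ) • A w ∈ Lam) → Irreducible mu →
  Polynomial.aeval A (mu.map (algebraMap ℚ ℂ)) = 0 →
  (∀ c : ℂ, Polynomial.aeval c mu = 0 → Module.finrank ℂ (Module.End.eigenspace A c) = m) →
  ∀ x : ExteriorAlgebra ℝ W, IsWeil A m x →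
    x ∈ Submodule.span ℝ {y : ExteriorAlgebra ℝ W | IsRatCl Lam (2 * m) y ∧ IsWeil A m y}

/-- KWH. A Weil class of an operator with eigenvalues of multiplicity `m` is invariant under `rot`, more generally under
every real `g` which commutes with `A` and has determinant one on the space of eigenfunctionals of `A` with eigenvalue
`c`, for all `c` (stated as: preserves the determinants of families of `2m` eigenfunctionals). -/
def KWH_stmt : Prop :=
  ∀ (W : Type) [NormedAddCommGroup W] [NormedSpace ℂ W] [FiniteDimensional ℂ W]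
  (A : W →ₗ[ℂ] W) (mu : Polynomial ℚ) (m : ℕ), Irreducible mu →
  Polynomial.aeval A (mu.map (algebraMap ℚ ℂ)) = 0 →
  (∀ c : ℂ, Polynomial.aeval c mu = 0 → Module.finrank ℂ (Module.End.eigenspace A c) = m) →
  ∀ x : ExteriorAlgebra ℝ W, IsWeil A m x →
    (∀ t : ℝ, ExteriorAlgebra.map (rot (W := W) t) x = x) ∧
    ∀ g : W →ₗ[ℝ] W, (∀ w, g (A w) = A (g w)) →
      (∀ (c : ℂ) (z : Fin (2 * m) → (W →ₗ[ℝ] ℂ)), (∀ i, IsEig A c (z i)) →
        detForm (fun i => (z i).comp g) = detForm z) → ExteriorAlgebra.map g x = x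

/-- KF2. Theorem 2 from Theorem 1 (`KWR`, `KWH`; the element `g` of `∏ SL_i` has determinant one on the eigenfunctionals of
`A` with eigenvalue `c`: these are the direct sum of the blocks `r` of the `A_i` with `P_i(ζ^r) = c` and of a space of
functionals on `B`, on which `g` is the identity). -/
def KF2_stmt : Prop :=
  ∀ C : (d : ℕ) → (n : ℕ) → (Fin (n + 1) → ℕ) → Prop, Det_stmt C → Weil_stmt C

end

end Pool.Agent.SJ
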